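import Mathlib

/-!
# Project H32DG (MP_e11434_an): every separable Banach space with a complemented copy of `ℓ₁(D)`, `D` a space with the
# Daugavet property (for example `L₁[0,1]`), has the Daugavet property in an equivalent norm. Statements.
-/

set_option autoImplicit false

open MeasureTheory
open scoped ENNReal

namespace Pool.Agent.H32DG

/-- the Daugavet property -/
def DP (Y : Type) [NormedAddCommGroup Y] [NormedSpace ℝ Y] : Prop :=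
  ∀ (f : Y →L[ℝ] ℝ) (v : Y), ‖ContinuousLinearMap.id ℝ Y + f.smulRight v‖ = 1 + ‖f.smulRight v‖

/-- `ℓ₁(D)` -/
abbrev L1 (D : Type) [NormedAddCommGroup D] : Type := lp (fun _ : ℕ => D) 1

/-- `L₁[0,1]` -/
abbrev U : Type := Lp ℝ 1 (volume.restrict (Set.Icc (0 : ℝ) 1))

/-- **SL** (from slices to the Daugavet property). PROOF. `≤` is clear. Let `T = f ⊗ v`. If `f = 0` or `v = 0` then
`‖id‖ = 1` is needed: `X` is not zero (apply the hypothesis, or `hX`). Otherwise `‖T‖ = ‖f‖ ‖v‖`; take `g = f / ‖f‖`,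
`x = v / ‖v‖`, `u` from the hypothesis: `‖u + f u • v‖ = ‖u + ‖f‖ ‖v‖ (g u) x‖`. With `t = ‖f‖ ‖v‖ > 0`, `a = g u`,
`1 - ε < a ≤ 1`: `‖u + t x‖ ≥ 1 + t - ε (1 + t)` (for `t ≤ 1`: `u + t x = t (u + x) + (1 - t) u`, hmm: use
`‖u + t x‖ ≥ ‖u + x‖ - (1 - t)` for `t ≤ 1`, and `‖u + t x‖ ≥ t ‖u + x‖ - (t - 1) ‖u‖` for `t ≥ 1`), and
`‖t x - t a x‖ ≤ t ε`. Let `ε → 0`. -/
def S_SL : Prop := ∀ (X : Type) [NormedAddCommGroup X] [NormedSpace ℝ X], (∃ x : X, x ≠ 0) →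
  (∀ x : X, ‖x‖ = 1 → ∀ g : X →L[ℝ] ℝ, ‖g‖ = 1 → ∀ ε : ℝ, 0 < ε →
    ∃ u : X, ‖u‖ ≤ 1 ∧ 1 - ε < g u ∧ 2 - ε < ‖x + u‖) → DP X

/-- **SUB** (smaller slices). PROOF. If `x = 0` take `g' = g` and `u` near the supremum has norm near one (`g u ≤ ‖u‖`).
Let `x ≠ 0`, `x' = x / ‖x‖`. By DP `‖id + g ⊗ x'‖ = 2` so there is `y`, `‖y‖ ≤ 1`, `‖y + g y • x'‖ > 2 - η`; let `h` be a norming
functional of `y + g y • x'` (`exists_dual_vector''`): `h y + g y * h x' > 2 - η`. So `h y > 1 - η`, `g y * h x' > 1 - η`. Replacing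
`(y, h)` by `(-y, -h)` we may assume `g y > 0`; then `g y > 1 - η`, `h x' > 1 - η`. Take `g' = (g + h) / ‖g + h‖`;
`‖g + h‖ ≥ (g + h) y ≥ 2 - 2 η`. If `‖u‖ ≤ 1`, `g' u > 1 - δ`, then `g u + h u ≥ (1 - δ) (2 - 2 η)`, so `g u`, `h u ≥ 1 - 2 η - 2 δ`, and
`‖x + u‖ ≥ h (x + u) ≥ ‖x‖ (1 - η) + 1 - 2 η - 2 δ`. Choose `η`, `δ` small. -/
def S_SUB : Prop := ∀ (D : Type) [NormedAddCommGroup D] [NormedSpace ℝ D], DP D →
  ∀ (x : D) (g : D →L[ℝ] ℝ), ‖g‖ = 1 → ∀ ε : ℝ, 0 < ε → ∃ (g' : D →L[ℝ] ℝ) (δ : ℝ), ‖g'‖ = 1 ∧ 0 < δ ∧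
    ∀ u : D, ‖u‖ ≤ 1 → 1 - δ < g' u → 1 - ε < g u ∧ ‖x‖ + 1 - ε ≤ ‖x + u‖

/-- **NET** (from SUB). PROOF. First finite sets `F` of `x` in place of the segment (induction on `F` with SUB: the slice of
`g'` is contained in the previous ones; at the end choose `u` in the last slice, `‖g'‖ = 1`). Then a finite net of the
segment `{x + c v : |c| ≤ M}`: if `‖y - y'‖ ≤ ε/4` and `‖y'‖ + 1 - ε/4 ≤ ‖y' + u‖` then `‖y‖ + 1 - ε ≤ ‖y + u‖`. -/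
def S_NET : Prop := ∀ (D : Type) [NormedAddCommGroup D] [NormedSpace ℝ D], DP D →
  ∀ (x v : D) (M : ℝ) (g : D →L[ℝ] ℝ), ‖g‖ = 1 → ∀ ε : ℝ, 0 < ε → ∃ u : D, ‖u‖ ≤ 1 ∧ 1 - ε < g u ∧
    ∀ c : ℝ, |c| ≤ M → ‖x + c • v‖ + 1 - ε ≤ ‖x + c • v + u‖

/-- **QUO** (from SL and NET). PROOF. `X = ℓ₁(D) ⧸ K`. `v ≠ 0` or `K = 0` (treat `v = 0` too: the argument is the same). `X ≠ 0` as
`D ≠ 0` (DP fails for the zero space) has `single 0 d ∉ K`, `single 0 d - ...`: if `D = ℝ v` then DP fails for `D` (`id + f ⊗ v` with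
`f v = -1` is zero), so choose `d ∉ ℝ v`. Use SL. Let `‖x‖ = 1` in `X`, `g : X → ℝ`, `‖g‖ = 1`; lift `x = mk f₀`, `‖f₀‖ ≤ 2`; so
`‖f₀ + κ‖ ≥ 1` for all `κ ∈ K`. Let `G = g ∘ mk` on `ℓ₁(D)`; there is `w`, `‖w‖ ≤ 1`, `G w > 1 - ε'`. With `G_n d = G (single n d)`
we have `G w = ∑ G_n (w n) ≤ sup ‖G_n‖ · ‖w‖` (`lp.hasSum_single`, `lp.norm_eq_tsum_rpow`), so `‖G_n‖ ≥ 1 - ε'` for some `n` (and `‖G_n‖ ≤ 1`).
NET with `x := f₀ n`, `v`, `M` with `M ‖v‖ ≥ 5` (if `v = 0` any `M`), `g := G_n / ‖G_n‖` gives `u`. Take `mk (single n u)`: norm `≤ 1`,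
`g (mk (single n u)) = G_n u ≥ (1 - ε')²`. For `κ ∈ K`, `κ n = c v`: if `|c| ≤ M`:
`‖f₀ + κ + single n u‖ = ∑_{m ≠ n} ‖f₀ m + κ m‖ + ‖f₀ n + c v + u‖ ≥ ‖f₀ + κ‖ + 1 - ε' ≥ 2 - ε'`; else
`‖f₀ + κ + single n u‖ ≥ ‖(f₀ + κ + single n u) n‖ ≥ 5 - 2 - 1 = 2`. The quotient norm is the infimum over `κ`
(`Submodule.Quotient.norm_mk...`, `QuotientAddGroup.norm_mk`, `quotient_norm_mk_eq`). -/
def S_QUO : Prop := ∀ (D : Type) [NormedAddCommGroup D] [NormedSpace ℝ D] (v : D), DP D →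
  ∀ K : Submodule ℝ (L1 D), IsClosed (K : Set (L1 D)) → (∀ w ∈ K, ∀ n, ∃ c : ℝ, w n = c • v) →
    ∀ (X : Type) [NormedAddCommGroup X] [NormedSpace ℝ X] (Q : L1 D →L[ℝ] X), (∀ x, ∃ w, Q w = x) →
      (∀ w, Q w = 0 ↔ w ∈ K) → (∀ w, ‖Q w‖ = Metric.infDist w K) → DP X

/-- **MAP** (the map of `ℓ₁` spaces given by an operator; `memℓp_gen`, `LinearMap.mkContinuous`, norm bound `‖T‖`). -/
def S_MAP : Prop := ∀ (D E : Type) [NormedAddCommGroup D] [NormedSpace ℝ D] [NormedAddCommGroup E] [NormedSpace ℝ E]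
  (T : D →L[ℝ] E), ∃ L : L1 D →L[ℝ] L1 E, ∀ w n, L w n = T (w n)

/-- **SUR** (separable Banach spaces are quotients of `ℓ₁`). PROOF. Let `y : ℕ → Z` enumerate the (countable) additive subgroup generated
by `TopologicalSpace.denseSeq Z`; let `q₁ c = ∑ c n • (‖y n‖⁻¹ • y n)` (a bounded operator `ℓ₁ → Z`, summable by norm). Each `y n` has the preimage
`‖y n‖ • single n 1` of norm `‖y n‖`, so `controlled_closure_of_complete` (with the subgroup, whose closure is everything) shows that `q₁`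
is surjective. Then `q c = (q₁ (n ↦ c (2 n)), n ↦ c (2 n + 1))` is surjective onto `Z × ℓ₁`. -/
def S_SUR : Prop := ∀ (Z : Type) [NormedAddCommGroup Z] [NormedSpace ℝ Z] [CompleteSpace Z]
  [TopologicalSpace.SeparableSpace Z], ∃ q : L1 ℝ →L[ℝ] Z × L1 ℝ, Function.Surjective q

/-- **ISO** (from MAP, SUR). PROOF. Let `q = (q₁, q₂)` be as in SUR. `Q w = (q₁ c, v · q₂ c + (w - c v))`, `c n = φ (w n)` (by MAP with `φ`,
with `r ↦ r v` and with the identity). Surjective: for `(z, e)` take `c` with `q c = (z, n ↦ φ (e n))`, `w n = c n v + (e n - φ (e n) v)`.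
If `Q w = 0` then, by `φ`, `q₂ c = 0`, and so `w n = c n v`. Give `L1 D ⧸ ker Q` the quotient norm; it is isomorphic to `Z × L1 D` by the
open mapping theorem (`LinearMap.quotKerEquivOfSurjective`, `LinearEquiv.toContinuousLinearEquivOfContinuous`). -/
def S_ISO : Prop := ∀ (D Z : Type) [NormedAddCommGroup D] [NormedSpace ℝ D] [CompleteSpace D] [NormedAddCommGroup Z]
  [NormedSpace ℝ Z] [CompleteSpace Z] [TopologicalSpace.SeparableSpace Z] (v : D) (φ : D →L[ℝ] ℝ), φ v = 1 →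
  ∃ (X : Type) (_ : NormedAddCommGroup X) (_ : NormedSpace ℝ X) (K : Submodule ℝ (L1 D)) (Q : L1 D →L[ℝ] X),
    IsClosed (K : Set (L1 D)) ∧ (∀ w ∈ K, ∀ n, ∃ c : ℝ, w n = c • v) ∧ (∀ x, ∃ w, Q w = x) ∧
    (∀ w, Q w = 0 ↔ w ∈ K) ∧ (∀ w, ‖Q w‖ = Metric.infDist w K) ∧ Nonempty ((Z × L1 D) ≃L[ℝ] X)

/-- **UDP** (`L₁[0,1]` has the Daugavet property; from SL). PROOF. Use SL. Given `x`, `g`, `ε`; choose `w`, `‖w‖ ≤ 1`, `g w > 1 - ε'`. For `N`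
large every set `A` of measure `≤ 1/N` has `∫_A |x| ≤ ε'`. Cut `[0,1]` into `N` intervals `A_j`; `w = ∑ w 1_{A_j}`, `‖w‖ = ∑ ‖w 1_{A_j}‖`, so some
`j` has `g (w 1_{A_j}) ≥ (1 - ε') ‖w 1_{A_j}‖ > 0`. Let `u = w 1_{A_j} / ‖w 1_{A_j}‖`: `‖x + u‖ ≥ ‖x 1_{A_jᶜ}‖ + ‖u‖ - ‖x 1_{A_j}‖ ≥ 2 - 2 ε'`. -/
def S_UDP : Prop := DP U

/-- **UU** (`ℓ₁(L₁[0,1]) ≅ L₁[0,1]`). PROOF. `[0,1)` is the disjoint union of `I_n = [1 - 2^-n, 1 - 2^-(n+1))`, `n ≥ 0`. Let `R_n f (t) = 2^-(n+1)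
f (1 - 2^-n + 2^-(n+1) t)` and `S_n w (s) = 2^(n+1) w (2^(n+1) (s - 1 + 2^-n)) 1_{I_n}(s)`, bounded operators of `L₁[0,1]` (images under affine
maps); `R_n S_m = δ_nm`, `∑ ‖R_n f‖ = ‖f‖`, `‖S_n w‖ = ‖w‖`, `f = ∑ S_n R_n f`. (Any other proof is fine; it is enough to have any
isomorphism. For instance both are `L₁` spaces of standard nonatomic measures; or first `L₁(ℝ)` cut into unit intervals.) -/
def S_UU : Prop := Nonempty (L1 U ≃L[ℝ] U)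

/-- **FIN** (from QUO, ISO, UDP, UU; helper32) -/
def S_FIN : Prop :=
  (∀ (X D : Type) [NormedAddCommGroup X] [NormedSpace ℝ X] [CompleteSpace X] [TopologicalSpace.SeparableSpace X]
    [NormedAddCommGroup D] [NormedSpace ℝ D] [CompleteSpace D], DP D →
    ∀ (i : L1 D →L[ℝ] X) (r : X →L[ℝ] L1 D), (∀ w, r (i w) = w) →
      ∃ (Y : Type) (_ : NormedAddCommGroup Y) (_ : NormedSpace ℝ Y), Nonempty (X ≃L[ℝ] Y) ∧ DP Y) ∧
  (∀ (X : Type) [NormedAddCommGroup X] [NormedSpace ℝ X] [CompleteSpace X] [TopologicalSpace.SeparableSpace X]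
    (i : U →L[ℝ] X) (r : X →L[ℝ] U), (∀ w, r (i w) = w) →
      ∃ (Y : Type) (_ : NormedAddCommGroup Y) (_ : NormedSpace ℝ Y), Nonempty (X ≃L[ℝ] Y) ∧ DP Y)

end Pool.Agent.H32DG
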