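import Mathlib
import Pool.Agent.H32DG.Stm

set_option autoImplicit false

open Set
open scoped ENNReal

namespace Pool.Agent.H32DG.FIN

/-- splitting -/
theorem split (X W : Type) [NormedAddCommGroup X] [NormedSpace ℝ X] [NormedAddCommGroup W] [NormedSpace ℝ W]
    (i : W →L[ℝ] X) (r : X →L[ℝ] W) (h : ∀ w, r (i w) = w) :
    Nonempty (X ≃L[ℝ] (LinearMap.ker (r : X →ₗ[ℝ] W)) × W) := by
  refine ⟨ContinuousLinearEquiv.equivOfInverse
    (((ContinuousLinearMap.id ℝ X - i.comp r).codRestrict (LinearMap.ker (r : X →ₗ[ℝ] W)) (fun x => ?_)).prod r)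
    ((Submodule.subtypeL _).comp (ContinuousLinearMap.fst ℝ _ _) + i.comp (ContinuousLinearMap.snd ℝ _ _)) ?_ ?_⟩
  · show r (x - i (r x)) = 0
    rw [map_sub, h, sub_self]
  · intro x
    show (x - i (r x)) + i (r x) = x
    abel
  · rintro ⟨⟨z, hz⟩, w⟩
    have hz' : r z = 0 := hz
    have h1 : r (z + i w) = w := by rw [map_add, h, hz', zero_add]
    apply Prod.ext
    · apply Subtype.ext
      show (z + i w) - i (r (z + i w)) = z
      rw [h1]; abel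
    · exact h1

theorem one (hQ : S_QUO) (hI : S_ISO) : ∀ (X D : Type) [NormedAddCommGroup X] [NormedSpace ℝ X] [CompleteSpace X]
    [TopologicalSpace.SeparableSpace X] [NormedAddCommGroup D] [NormedSpace ℝ D] [CompleteSpace D], DP D →
    ∀ (i : L1 D →L[ℝ] X) (r : X →L[ℝ] L1 D), (∀ w, r (i w) = w) →
      ∃ (Y : Type) (_ : NormedAddCommGroup Y) (_ : NormedSpace ℝ Y), Nonempty (X ≃L[ℝ] Y) ∧ DP Y := by
  intro X D _ _ _ _ _ _ _ hD i r h
  have hv : ∃ v : D, v ≠ 0 := by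
    by_contra hc
    push Not at hc
    have h1 := hD 0 0
    have h2 : ContinuousLinearMap.id ℝ D + (0 : D →L[ℝ] ℝ).smulRight (0 : D) = 0 := by
      ext d; simp [hc d]
    have h3 : (0 : D →L[ℝ] ℝ).smulRight (0 : D) = 0 := by
      ext d; simp
    rw [h2, h3, norm_zero] at h1
    norm_num at h1
  obtain ⟨v, hv⟩ := hv
  have hn : ‖v‖ ≠ 0 := norm_ne_zero_iff.2 hv
  obtain ⟨g, -, hg⟩ := exists_dual_vector ℝ v hn
  obtain ⟨e⟩ := split X (L1 D) i r h
  have hcl : IsClosed ((LinearMap.ker (r : X →ₗ[ℝ] L1 D) : Submodule ℝ X) : Set X) := r.isClosed_ker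
  have : CompleteSpace (LinearMap.ker (r : X →ₗ[ℝ] L1 D)) := hcl.completeSpace_coe
  have : TopologicalSpace.SeparableSpace (LinearMap.ker (r : X →ₗ[ℝ] L1 D)) := by
    have := UniformSpace.secondCountable_of_separable X
    infer_instance
  obtain ⟨Y, _, _, K, Q, h1, h2, h3, h4, h5, ⟨e2⟩⟩ := hI D (LinearMap.ker (r : X →ₗ[ℝ] L1 D)) v (‖v‖⁻¹ • g) (by
    show ‖v‖⁻¹ * g v = 1
    rw [hg]
    exact inv_mul_cancel₀ hn)
  exact ⟨Y, _, _, ⟨e.trans e2⟩, hQ D v hD K h1 h2 Y Q h3 h4 h5⟩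

theorem t (hQ : S_QUO) (hI : S_ISO) (hU : S_UDP) (hUU : S_UU) : S_FIN := by
  refine ⟨one hQ hI, ?_⟩
  intro X _ _ _ _ i r h
  obtain ⟨e⟩ := hUU
  refine one hQ hI X U hU (i.comp (e : L1 U →L[ℝ] U)) ((e.symm : U →L[ℝ] L1 U).comp r) ?_
  intro w
  show e.symm (r (i (e w))) = w
  rw [h, e.symm_apply_apply]

end Pool.Agent.H32DG.FIN
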