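import Mathlib
import Pool.Agent.H32DG.Stm

set_option autoImplicit false

open MeasureTheory
open scoped ENNReal

namespace Pool.Agent.H32DG.ISO

theorem t (hM : S_MAP) (hS : S_SUR) : S_ISO := by
  intro D Z _ _ _ _ _ _ _ v φ hφ
  obtain ⟨q, hq⟩ := hS Z
  obtain ⟨Φ, hΦ⟩ := hM D ℝ φ
  obtain ⟨V, hV⟩ := hM ℝ D ((ContinuousLinearMap.id ℝ ℝ).smulRight v)
  have hΦV : ∀ c, Φ (V c) = c := by
    intro c
    ext n
    rw [hΦ, hV]
    simp [hφ]
  -- the operator
  let T : L1 D →L[ℝ] Z × L1 D :=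
    ((ContinuousLinearMap.fst ℝ Z (L1 ℝ)).comp (q.comp Φ)).prod
      (V.comp ((ContinuousLinearMap.snd ℝ Z (L1 ℝ)).comp (q.comp Φ)) +
        (ContinuousLinearMap.id ℝ (L1 D) - V.comp Φ))
  have hT : ∀ w, T w = ((q (Φ w)).1, V (q (Φ w)).2 + (w - V (Φ w))) := fun w => rfl
  have hsurj : Function.Surjective T := by
    rintro ⟨z, e⟩
    obtain ⟨c, hc⟩ := hq (z, Φ e)
    refine ⟨V c + (e - V (Φ e)), ?_⟩
    have h1 : Φ (V c + (e - V (Φ e))) = c := by
      rw [map_add, map_sub, hΦV, hΦV, sub_self, add_zero]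
    rw [hT, h1, hc]
    simp
  have hker : ∀ w, T w = 0 → w = V (Φ w) := by
    intro w hw
    rw [hT, Prod.mk_eq_zero] at hw
    obtain ⟨-, h2⟩ := hw
    have h3 := congrArg Φ h2
    rw [map_add, map_sub, hΦV, hΦV, sub_self, add_zero, map_zero] at h3
    rw [h3, map_zero, zero_add] at h2
    exact sub_eq_zero.1 h2
  have hcl : IsClosed (T.ker : Set (L1 D)) := T.isClosed_ker
  have hcl' : IsClosed (T.ker : Set (L1 D)) := hcl
  refine ⟨L1 D ⧸ T.ker, inferInstance, inferInstance, T.ker, T.ker.mkQL, hcl, ?_, ?_, ?_, ?_, ?_⟩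
  · intro w hw n
    have h1 := hker w hw
    refine ⟨Φ w n, ?_⟩
    rw [h1, hV, hΦV]
    simp
  · intro x
    exact Submodule.mkQ_surjective _ x
  · intro w
    exact Submodule.Quotient.mk_eq_zero _
  · intro w
    exact QuotientAddGroup.norm_mk (S := T.ker.toAddSubgroup) w
  · let e : (L1 D ⧸ T.ker) ≃ₗ[ℝ] Z × L1 D := LinearMap.quotKerEquivOfSurjective (T : L1 D →ₗ[ℝ] Z × L1 D) hsurj
    have he : Continuous e := by
      have h1 : Continuous (T.ker.liftQL T le_rfl) := (T.ker.liftQL T le_rfl).continuous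
      refine h1.congr fun x => ?_
      obtain ⟨w, rfl⟩ := Submodule.mkQ_surjective _ x
      rfl
    exact ⟨(e.toContinuousLinearEquivOfContinuous he).symm⟩

end Pool.Agent.H32DG.ISO
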