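import Mathlib
import Pool.Agent.H32DG.Stm

set_option autoImplicit false

namespace Pool.Agent.H32DG.ISOb

open Pool.Agent.H32DG

theorem t (hMAP : S_MAP) (hSUR : S_SUR) : S_ISO := by
  intro D Z _ _ _ _ _ _ _ v φ hφ
  obtain ⟨q, hq⟩ := hSUR Z
  obtain ⟨A, hA⟩ := hMAP D ℝ φ
  obtain ⟨B, hB⟩ := hMAP ℝ D (ContinuousLinearMap.toSpanSingleton ℝ v)
  have hAB : ∀ c, A (B c) = c := by
    intro c
    ext n
    rw [hA, hB]
    simp [ContinuousLinearMap.toSpanSingleton_apply, hφ]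
  let Q0 : L1 D →L[ℝ] Z × L1 D :=
    ((ContinuousLinearMap.fst ℝ Z (L1 ℝ)).comp (q.comp A)).prod
      (B.comp ((ContinuousLinearMap.snd ℝ Z (L1 ℝ)).comp (q.comp A)) +
        (ContinuousLinearMap.id ℝ (L1 D) - B.comp A))
  have hQ0 : ∀ w, Q0 w = ((q (A w)).1, B (q (A w)).2 + (w - B (A w))) := fun w => rfl
  have hsurj : Function.Surjective Q0 := by
    rintro ⟨z, e⟩
    obtain ⟨c, hc⟩ := hq (z, A e)
    refine ⟨B c + (e - B (A e)), ?_⟩
    have hw : A (B c + (e - B (A e))) = c := by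
      rw [map_add, map_sub, hAB, hAB, sub_self, add_zero]
    rw [hQ0, hw, hc]
    refine Prod.ext rfl ?_
    show B (A e) + (B c + (e - B (A e)) - B c) = e
    abel
  have hker : ∀ w, Q0 w = 0 → ∀ n, ∃ c : ℝ, w n = c • v := by
    intro w hw n
    rw [hQ0] at hw
    have h2 : B (q (A w)).2 + (w - B (A w)) = 0 := congrArg Prod.snd hw
    have h3 : (q (A w)).2 = 0 := by
      have := congrArg A h2
      rw [map_add, map_sub, hAB, hAB, sub_self, add_zero, map_zero] at this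
      exact this
    rw [h3, map_zero, zero_add, sub_eq_zero] at h2
    refine ⟨(A w) n, ?_⟩
    conv_lhs => rw [h2]
    rw [hB]
    rfl
  have hcl : IsClosed ((LinearMap.ker (Q0 : L1 D →ₗ[ℝ] Z × L1 D)) : Set (L1 D)) := Q0.isClosed_ker
  have := hcl
  have hsurj' : Function.Surjective (Q0 : L1 D →ₗ[ℝ] Z × L1 D) := hsurj
  let e0 : (L1 D ⧸ LinearMap.ker (Q0 : L1 D →ₗ[ℝ] Z × L1 D)) ≃ₗ[ℝ] Z × L1 D :=
    (Q0 : L1 D →ₗ[ℝ] Z × L1 D).quotKerEquivOfSurjective hsurj'
  have hcont : Continuous e0 := by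
    have : Continuous (fun w : L1 D => e0 (Submodule.Quotient.mk w)) := by
      have : (fun w : L1 D => e0 (Submodule.Quotient.mk w)) = Q0 := by
        ext1 w; rfl
      rw [this]; exact Q0.continuous
    exact continuous_quot_lift _ Q0.continuous
  refine ⟨L1 D ⧸ LinearMap.ker (Q0 : L1 D →ₗ[ℝ] Z × L1 D), inferInstance, inferInstance,
    LinearMap.ker (Q0 : L1 D →ₗ[ℝ] Z × L1 D), Submodule.mkQL _, hcl, ?_, ?_, ?_, ?_, ?_⟩
  · intro w hw n
    exact hker w hw n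
  · intro x
    obtain ⟨w, hw⟩ := Submodule.Quotient.mk_surjective _ x
    exact ⟨w, hw⟩
  · intro w
    exact Submodule.Quotient.mk_eq_zero _
  · intro w
    exact QuotientAddGroup.norm_mk w
  · exact ⟨(e0.toContinuousLinearEquivOfContinuous hcont).symm⟩

end Pool.Agent.H32DG.ISOb
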