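import Mathlib
import Pool.Agent.H32DG.Stm

set_option autoImplicit false

/-!
# Project H32DG, stub MAP: the map of `ℓ₁` spaces given by an operator
-/

open MeasureTheory
open scoped ENNReal

namespace Pool.Agent.H32DG.MAP

variable {D E : Type} [NormedAddCommGroup D] [NormedSpace ℝ D] [NormedAddCommGroup E] [NormedSpace ℝ E]

theorem summ (w : L1 D) : Summable fun n => ‖w n‖ := by
  have h1 := (lp.memℓp w).summable (by norm_num)
  simpa using h1

theorem norm_eq (w : L1 D) : ‖w‖ = ∑' n, ‖w n‖ := by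
  have h1 := lp.norm_eq_tsum_rpow (p := 1) (by norm_num) w
  simpa using h1

theorem mem (T : D →L[ℝ] E) (w : L1 D) : Memℓp (fun n => T (w n)) 1 := by
  refine memℓp_gen ?_
  simp only [ENNReal.toReal_one, Real.rpow_one]
  exact Summable.of_nonneg_of_le (fun n => norm_nonneg _) (fun n => T.le_opNorm _) ((summ w).mul_left ‖T‖)

/-- the map -/
noncomputable def L0 (T : D →L[ℝ] E) : L1 D →ₗ[ℝ] L1 E where
  toFun w := ⟨fun n => T (w n), mem T w⟩
  map_add' w w' := by
    ext n
    exact T.map_add _ _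
  map_smul' c w := by
    ext n
    exact T.map_smul _ _

theorem L0_apply (T : D →L[ℝ] E) (w : L1 D) (n : ℕ) : L0 T w n = T (w n) := rfl

theorem t : S_MAP := by
  intro D E _ _ _ _ T
  refine ⟨(L0 T).mkContinuous ‖T‖ fun w => ?_, fun w n => rfl⟩
  rw [norm_eq, norm_eq, ← tsum_mul_left]
  refine Summable.tsum_le_tsum (fun n => ?_) (summ _) ((summ w).mul_left _)
  rw [L0_apply]
  exact T.le_opNorm _

end Pool.Agent.H32DG.MAP
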