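import Mathlib
import Pool.Agent.H32DG.Stm

/-!
# Stub NET of project H32DG (helper90)
-/

set_option autoImplicit false

namespace Pool.Agent.H32DG.NET

theorem fin (h : S_SUB) (D : Type) [NormedAddCommGroup D] [NormedSpace ℝ D] (hD : DP D)
    (g : D →L[ℝ] ℝ) (hg : ‖g‖ = 1) (ε : ℝ) (hε : 0 < ε) (F : List D) :
    ∃ (g' : D →L[ℝ] ℝ) (δ : ℝ), ‖g'‖ = 1 ∧ 0 < δ ∧
      ∀ u : D, ‖u‖ ≤ 1 → 1 - δ < g' u → 1 - ε < g u ∧ ∀ y ∈ F, ‖y‖ + 1 - ε ≤ ‖y + u‖ := by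
  induction F with
  | nil => exact ⟨g, ε, hg, hε, fun u _ h2 => ⟨h2, fun y hy => absurd hy (List.not_mem_nil)⟩⟩
  | cons y F ih =>
    obtain ⟨g1, δ1, hg1, hδ1, h1⟩ := ih
    obtain ⟨g2, δ2, hg2, hδ2, h2⟩ := h D hD y g1 hg1 (min δ1 ε) (lt_min hδ1 hε)
    refine ⟨g2, δ2, hg2, hδ2, fun u hu hgu => ?_⟩
    obtain ⟨h3, h4⟩ := h2 u hu hgu
    have h5 : 1 - δ1 < g1 u := lt_of_le_of_lt (by linarith [min_le_left δ1 ε]) h3
    obtain ⟨h6, h7⟩ := h1 u hu h5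
    refine ⟨h6, fun z hz => ?_⟩
    rcases List.mem_cons.1 hz with rfl | hz
    · linarith [min_le_right δ1 ε]
    · exact h7 z hz

theorem exists_u (D : Type) [NormedAddCommGroup D] [NormedSpace ℝ D]
    (g : D →L[ℝ] ℝ) (hg : ‖g‖ = 1) (δ : ℝ) (hδ : 0 < δ) : ∃ u : D, ‖u‖ ≤ 1 ∧ 1 - δ < g u := by
  obtain ⟨x, hx, hgx⟩ := g.exists_lt_apply_of_lt_opNorm (show 1 - δ < ‖g‖ by rw [hg]; linarith)
  rcases le_total 0 (g x) with h0 | h0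
  · exact ⟨x, hx.le, by rwa [Real.norm_of_nonneg h0] at hgx⟩
  · refine ⟨-x, by rw [norm_neg]; exact hx.le, ?_⟩
    rw [Real.norm_of_nonpos h0] at hgx
    rwa [map_neg]

theorem t (h : S_SUB) : S_NET := by
  intro D _ _ hD x v M g hg ε hε
  have hc : IsCompact ((fun c : ℝ => x + c • v) '' Set.Icc (-M) M) :=
    isCompact_Icc.image (by fun_prop)
  obtain ⟨T, -, hT, hcov⟩ := hc.finite_cover_balls (show 0 < ε / 4 by linarith)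
  obtain ⟨g', δ, hg', hδ, h1⟩ := fin h D hD g hg (ε / 4) (by linarith) hT.toFinset.toList
  obtain ⟨u, hu, hgu⟩ := exists_u D g' hg' δ hδ
  obtain ⟨h2, h3⟩ := h1 u hu hgu
  refine ⟨u, hu, by linarith, fun c hcM => ?_⟩
  obtain ⟨y, hy⟩ : ∃ y, y = x + c • v := ⟨_, rfl⟩
  rw [← hy]
  have hmem : y ∈ (fun c : ℝ => x + c • v) '' Set.Icc (-M) M := by
    rw [hy]
    exact ⟨c, abs_le.1 hcM, rfl⟩
  obtain ⟨y', hy', hd⟩ := Set.mem_iUnion₂.1 (hcov hmem)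
  rw [Metric.mem_ball, dist_eq_norm] at hd
  have h4 := h3 y' (by simpa using hy')
  have h5 : ‖y‖ ≤ ‖y'‖ + ‖y - y'‖ := by
    calc ‖y‖ = ‖y' + (y - y')‖ := by congr 1; abel
      _ ≤ _ := norm_add_le _ _
  have h6 : ‖y' + u‖ ≤ ‖y + u‖ + ‖y - y'‖ := by
    calc ‖y' + u‖ = ‖(y + u) - (y - y')‖ := by congr 1; abel
      _ ≤ _ := norm_sub_le _ _
  linarith

end Pool.Agent.H32DG.NET
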