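import Mathlib
import Pool.Agent.H32DG.Stm

set_option autoImplicit false

namespace Pool.Agent.H32DG.QUO

open scoped ENNReal

variable {D : Type} [NormedAddCommGroup D]

theorem hasSum_n (w : L1 D) : HasSum (fun i => ‖w i‖) ‖w‖ := by
  have h := lp.hasSum_norm (p := 1) (by simp) w
  simpa using h

theorem norm_add_single (h : L1 D) (n : ℕ) (u : D) :
    ‖h + lp.single 1 n u‖ = ‖h‖ + (‖h n + u‖ - ‖h n‖) := by
  have h1 := (hasSum_n (h + lp.single 1 n u)).sub (hasSum_n h)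
  have h2 : HasSum (fun i => ‖(h + lp.single 1 n u : L1 D) i‖ - ‖h i‖) (‖h n + u‖ - ‖h n‖) := by
    have h3 := hasSum_single (f := fun i => ‖(h + lp.single 1 n u : L1 D) i‖ - ‖h i‖) n (by
      intro m hm
      rw [lp.coeFn_add, Pi.add_apply, lp.single_apply_ne _ _ _ hm, add_zero, sub_self])
    rwa [lp.coeFn_add, Pi.add_apply, lp.single_apply_self] at h3
  have := h1.unique h2
  linarith

variable [NormedSpace ℝ D]

theorem exists_off (v : D) (hD : DP D) : ∃ d : D, ∀ c : ℝ, d ≠ c • v := by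
  by_contra hcon
  push Not at hcon
  obtain ⟨f, hf⟩ : ∃ f : D →L[ℝ] ℝ, v = 0 ∨ f v = -1 := by
    by_cases hv : v = 0
    · exact ⟨0, Or.inl hv⟩
    · have hv' : ‖v‖ ≠ 0 := norm_ne_zero_iff.2 hv
      obtain ⟨g, -, hg⟩ := exists_dual_vector ℝ v hv'
      refine ⟨(-‖v‖⁻¹) • g, Or.inr ?_⟩
      rw [smul_apply, hg, smul_eq_mul]
      simp only [RCLike.ofReal_real_eq_id, id]
      field_simp
  have h0 : ContinuousLinearMap.id ℝ D + f.smulRight v = 0 := by
    ext d
    obtain ⟨c, rfl⟩ := hcon d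
    rw [add_apply, ContinuousLinearMap.id_apply,
      ContinuousLinearMap.smulRight_apply, map_smul, zero_apply]
    rcases hf with hv | hv
    · rw [hv, smul_zero, smul_zero, add_zero]
    · rw [hv, smul_eq_mul, mul_neg, mul_one, neg_smul, add_neg_cancel]
  have h1 := hD f v
  rw [h0, norm_zero] at h1
  have := norm_nonneg (f.smulRight v)
  linarith

theorem t (h1 : S_SL) (h2 : S_NET) : S_QUO := by
  intro D _ _ v hD K hK hKv X _ _ Q hsurj hker hnorm
  have hKne : (K : Set (L1 D)).Nonempty := ⟨0, K.zero_mem⟩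
  have hQ1 : ∀ w, ‖Q w‖ ≤ ‖w‖ := by
    intro w
    rw [hnorm]
    have := Metric.infDist_le_dist_of_mem (x := w) K.zero_mem
    rwa [dist_zero_right] at this
  -- small preimages
  have hlift : ∀ (y : X) (r : ℝ), ‖y‖ < r → ∃ w, Q w = y ∧ ‖w‖ < r := by
    intro y r hy
    obtain ⟨w, rfl⟩ := hsurj y
    rw [hnorm, Metric.infDist_lt_iff hKne] at hy
    obtain ⟨κ, hκ, hd⟩ := hy
    refine ⟨w - κ, ?_, ?_⟩
    · rw [map_sub, (hker κ).2 hκ, sub_zero]
    · rwa [← dist_eq_norm]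
  apply h1 X
  · obtain ⟨d, hd⟩ := exists_off v hD
    refine ⟨Q (lp.single 1 0 d), fun h => ?_⟩
    obtain ⟨c, hc⟩ := hKv _ ((hker _).1 h) 0
    rw [lp.single_apply_self] at hc
    exact hd c hc
  intro x hx g hg ε hε
  set e := min (ε / 2) (1 / 2) with he
  have he0 : 0 < e := lt_min (by positivity) (by norm_num)
  have he1 : e ≤ ε / 2 := min_le_left _ _
  have he2 : e ≤ 1 / 2 := min_le_right _ _
  obtain ⟨f0, hf0, hf0n⟩ := hlift x 2 (by rw [hx]; norm_num)
  have hf0K : ∀ κ ∈ K, 1 ≤ ‖f0 + κ‖ := by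
    intro κ hκ
    have h3 := Metric.infDist_le_dist_of_mem (x := f0) (K.neg_mem hκ)
    rw [← hnorm, hf0, hx, dist_eq_norm, sub_neg_eq_add] at h3
    exact h3
  obtain ⟨w, hw1, hw2⟩ : ∃ w : L1 D, ‖w‖ ≤ 1 ∧ 1 - e < g (Q w) := by
    obtain ⟨y, hy1, hy2⟩ := g.exists_lt_apply_of_lt_opNorm (r := 1 - e) (by rw [hg]; linarith)
    rw [Real.norm_eq_abs] at hy2
    rcases le_total 0 (g y) with h3 | h3
    · obtain ⟨w, hw, hwn⟩ := hlift y 1 hy1
      rw [abs_of_nonneg h3] at hy2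
      exact ⟨w, hwn.le, by rw [hw]; exact hy2⟩
    · obtain ⟨w, hw, hwn⟩ := hlift (-y) 1 (by rwa [norm_neg])
      rw [abs_of_nonpos h3] at hy2
      exact ⟨w, hwn.le, by rw [hw, map_neg]; exact hy2⟩
  let G : ℕ → (D →L[ℝ] ℝ) := fun n =>
    (g.comp Q).comp (lp.singleContinuousLinearMap ℝ (fun _ : ℕ => D) 1 n)
  have hG : ∀ n d, G n d = g (Q (lp.single 1 n d)) := fun n d => rfl
  have hgQ : ∀ z : L1 D, |g (Q z)| ≤ ‖z‖ := by
    intro z
    have h3 := g.le_opNorm (Q z)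
    rw [hg, one_mul, Real.norm_eq_abs] at h3
    exact h3.trans (hQ1 z)
  obtain ⟨n, hn⟩ : ∃ n, 1 - e < ‖G n‖ := by
    by_contra hcon
    push Not at hcon
    have h3 : HasSum (fun i => g (Q (lp.single 1 i (w i)))) (g (Q w)) :=
      (lp.hasSum_single ENNReal.one_ne_top w).mapL (g.comp Q)
    have h4 : HasSum (fun i => (1 - e) * ‖w i‖) ((1 - e) * ‖w‖) := (hasSum_n w).mul_left _
    have h5 : g (Q w) ≤ (1 - e) * ‖w‖ := by
      refine hasSum_le (fun i => ?_) h3 h4
      have h6 := (G i).le_opNorm (w i)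
      rw [Real.norm_eq_abs] at h6
      have h7 := mul_le_mul_of_nonneg_right (hcon i) (norm_nonneg (w i))
      exact ((le_abs_self _).trans h6).trans h7
    nlinarith
  set a := ‖G n‖ with ha
  have ha0 : 0 < a := by linarith
  have hg' : ‖a⁻¹ • G n‖ = 1 := by
    rw [norm_smul, norm_inv, Real.norm_of_nonneg ha0.le, ← ha, inv_mul_cancel₀ ha0.ne']
  obtain ⟨u, hu1, hu2, hu3⟩ := h2 D hD (f0 n) v (5 / ‖v‖) (a⁻¹ • G n) hg' e he0
  refine ⟨Q (lp.single 1 n u), ?_, ?_, ?_⟩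
  · exact (hQ1 _).trans (by rw [lp.norm_single (by norm_num)]; exact hu1)
  · rw [smul_apply, smul_eq_mul, hG] at hu2
    have h3 : (1 - e) * a < g (Q (lp.single 1 n u)) := by
      rw [inv_mul_eq_div, lt_div_iff₀ ha0] at hu2
      exact hu2
    nlinarith
  · rw [← hf0, ← map_add, hnorm]
    have key : 2 - e ≤ Metric.infDist (f0 + lp.single 1 n u) (K : Set (L1 D)) := by
      rw [Metric.le_infDist hKne]
      intro κ' hκ'
      rw [dist_eq_norm]
      have hκ : -κ' ∈ K := K.neg_mem hκ'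
      have e1 : f0 + lp.single 1 n u - κ' = (f0 + -κ') + lp.single 1 n u := by abel
      rw [e1]
      obtain ⟨c, hc⟩ := hKv _ hκ n
      have e2 : (f0 + -κ' : L1 D) n = f0 n + c • v := by
        rw [lp.coeFn_add, Pi.add_apply, hc]
      by_cases hv : v = 0 ∨ |c| ≤ 5 / ‖v‖
      · have h3 : ‖f0 n + c • v‖ + 1 - e ≤ ‖f0 n + c • v + u‖ := by
          rcases hv with hv | hv
          · have h4 := hu3 0 (by rw [abs_zero]; positivity)
            rw [hv, smul_zero] at h4 ⊢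
            exact h4
          · exact hu3 c hv
        rw [norm_add_single, e2]
        have h4 := hf0K _ hκ
        linarith
      · rw [not_or] at hv
        obtain ⟨hv0, hcv⟩ := hv
        have hvn : 0 < ‖v‖ := norm_pos_iff.2 hv0
        rw [not_le, div_lt_iff₀ hvn] at hcv
        have h3 : ‖(f0 + -κ' + lp.single 1 n u : L1 D) n‖ ≤ ‖f0 + -κ' + lp.single 1 n u‖ :=
          lp.norm_apply_le_norm one_ne_zero _ n
        have h4 : (f0 + -κ' + lp.single 1 n u : L1 D) n = f0 n + c • v + u := by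
          rw [lp.coeFn_add, Pi.add_apply, lp.single_apply_self, e2]
        rw [h4] at h3
        have h5 : ‖f0 n‖ ≤ ‖f0‖ := lp.norm_apply_le_norm one_ne_zero _ n
        have h6 : ‖c • v‖ = |c| * ‖v‖ := by rw [norm_smul, Real.norm_eq_abs]
        have h7 : ‖c • v‖ ≤ ‖f0 n + c • v + u‖ + ‖f0 n‖ + ‖u‖ := by
          have e3 : c • v = (f0 n + c • v + u) - f0 n - u := by abel
          calc ‖c • v‖ = ‖(f0 n + c • v + u) - f0 n - u‖ := by rw [← e3]
            _ ≤ ‖(f0 n + c • v + u) - f0 n‖ + ‖u‖ := norm_sub_le _ _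
            _ ≤ ‖f0 n + c • v + u‖ + ‖f0 n‖ + ‖u‖ := by
                have := norm_sub_le (f0 n + c • v + u) (f0 n)
                linarith
        linarith
    linarith

end Pool.Agent.H32DG.QUO
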