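import Mathlib
import Pool.Agent.H32DG.Stm

set_option autoImplicit false

/-! Stub SL of project H32DG (helper32). Written by helper79. -/

namespace Pool.Agent.H32DG.SL

open Pool.Agent.H32DG

theorem t : S_SL := by
  intro X _ _ hX hsl f v
  obtain ⟨x₀, hx₀⟩ := hX
  haveI : Nontrivial X := ⟨⟨x₀, 0, hx₀⟩⟩
  have hid : ‖ContinuousLinearMap.id ℝ X‖ = 1 := ContinuousLinearMap.norm_id
  set T : X →L[ℝ] X := f.smulRight v with hT
  have hTn : ‖T‖ = ‖f‖ * ‖v‖ := by
    rw [hT]
    exact ContinuousLinearMap.norm_smulRight_apply f v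
  apply le_antisymm
  · calc ‖ContinuousLinearMap.id ℝ X + T‖ ≤ ‖ContinuousLinearMap.id ℝ X‖ + ‖T‖ := norm_add_le _ _
      _ = 1 + ‖T‖ := by rw [hid]
  rcases eq_or_lt_of_le (norm_nonneg T) with h0 | h0
  · have hT0 : T = 0 := norm_eq_zero.1 h0.symm
    rw [hT0, add_zero, hid, norm_zero, add_zero]
  have hf0 : 0 < ‖f‖ := by
    rcases eq_or_lt_of_le (norm_nonneg f) with h | h
    · rw [hTn, ← h, zero_mul] at h0
      exact absurd h0 (lt_irrefl _)
    · exact h
  have hv0 : 0 < ‖v‖ := by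
    rcases eq_or_lt_of_le (norm_nonneg v) with h | h
    · rw [hTn, ← h, mul_zero] at h0
      exact absurd h0 (lt_irrefl _)
    · exact h
  set s : ℝ := ‖T‖ with hs
  set N : ℝ := ‖ContinuousLinearMap.id ℝ X + T‖ with hN
  -- the estimate
  have key : ∀ ε : ℝ, 0 < ε → 1 + s - ε * (1 + 2 * s) ≤ N := by
    intro ε hε
    have hxn : ‖(‖v‖⁻¹ • v : X)‖ = 1 := by
      rw [norm_smul, norm_inv, norm_norm, inv_mul_cancel₀ hv0.ne']
    have hgn : ‖(‖f‖⁻¹ • f : X →L[ℝ] ℝ)‖ = 1 := by
      rw [norm_smul, norm_inv, norm_norm, inv_mul_cancel₀ hf0.ne']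
    obtain ⟨u, hu1, hu2, hu3⟩ := hsl (‖v‖⁻¹ • v) hxn (‖f‖⁻¹ • f) hgn ε hε
    set x : X := ‖v‖⁻¹ • v with hx
    set a : ℝ := (‖f‖⁻¹ • f : X →L[ℝ] ℝ) u with ha
    have ha1 : a ≤ 1 := by
      have h1 := (‖f‖⁻¹ • f : X →L[ℝ] ℝ).le_opNorm u
      rw [hgn, one_mul, ← ha] at h1
      exact (le_abs_self a).trans (h1.trans hu1)
    have hfu : f u = ‖f‖ * a := by
      rw [ha, ContinuousLinearMap.smul_apply, smul_eq_mul, ← mul_assoc, mul_inv_cancel₀ hf0.ne', one_mul]
    have hvx : v = ‖v‖ • x := by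
      rw [hx, smul_smul, mul_inv_cancel₀ hv0.ne', one_smul]
    have e1 : (ContinuousLinearMap.id ℝ X + T) u = u + (s * a) • x := by
      rw [ContinuousLinearMap.add_apply, ContinuousLinearMap.id_apply, hT, ContinuousLinearMap.smulRight_apply,
        hfu]
      conv_lhs => rw [hvx]
      rw [smul_smul, hTn]
      congr 2
      ring
    have e2 : ‖u + (s * a) • x‖ ≤ N := by
      rw [← e1]
      have h1 := (ContinuousLinearMap.id ℝ X + T).le_opNorm u
      rw [← hN] at h1
      have h2 : N * ‖u‖ ≤ N * 1 := mul_le_mul_of_nonneg_left hu1 (norm_nonneg _)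
      linarith
    have e3 : ‖u + s • x‖ ≤ ‖u + (s * a) • x‖ + s * ε := by
      have h1 : u + s • x = (u + (s * a) • x) + (s * (1 - a)) • x := by
        rw [add_assoc, ← add_smul]
        congr 2
        ring
      rw [h1]
      refine (norm_add_le _ _).trans ?_
      have h2 : ‖(s * (1 - a)) • x‖ = s * (1 - a) := by
        rw [norm_smul, hxn, mul_one, Real.norm_of_nonneg (mul_nonneg h0.le (by linarith))]
      rw [h2]
      have h3 : s * (1 - a) ≤ s * ε := mul_le_mul_of_nonneg_left (by linarith) h0.le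
      linarith
    have e4 : 1 + s - ε * (1 + s) ≤ ‖u + s • x‖ := by
      rcases le_total s 1 with h1 | h1
      · have h2 : x + u = (u + s • x) + (1 - s) • x := by
          rw [sub_smul, one_smul]
          abel
        have h3 : ‖x + u‖ ≤ ‖u + s • x‖ + (1 - s) := by
          rw [h2]
          refine (norm_add_le _ _).trans ?_
          rw [norm_smul, hxn, mul_one, Real.norm_of_nonneg (by linarith)]
        nlinarith
      · have h2 : s • (x + u) = (u + s • x) + (s - 1) • u := by
          rw [sub_smul, one_smul, smul_add]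
          abel
        have h3 : s * ‖x + u‖ ≤ ‖u + s • x‖ + (s - 1) := by
          have h4 : s * ‖x + u‖ = ‖s • (x + u)‖ := by
            rw [norm_smul, Real.norm_of_nonneg h0.le]
          rw [h4, h2]
          refine (norm_add_le _ _).trans ?_
          rw [norm_smul, Real.norm_of_nonneg (by linarith : (0:ℝ) ≤ s - 1)]
          have h5 : (s - 1) * ‖u‖ ≤ (s - 1) * 1 := mul_le_mul_of_nonneg_left hu1 (by linarith)
          linarith
        nlinarith
    linarith
  by_contra hcon
  push Not at hcon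
  have hpos : 0 < 1 + 2 * s := by linarith
  have h1 := key ((1 + s - N) / (2 * (1 + 2 * s))) (by
    apply div_pos <;> linarith)
  have h2 : (1 + s - N) / (2 * (1 + 2 * s)) * (1 + 2 * s) = (1 + s - N) / 2 := by
    field_simp
  rw [h2] at h1
  linarith

end Pool.Agent.H32DG.SL
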