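import Mathlib
import Pool.Agent.H32DG.Stm

/-! Stub SUB of the project DG (helper32). -/

set_option autoImplicit false

namespace Pool.Agent.H32DG.SUB

theorem abs_le {D : Type} [NormedAddCommGroup D] [NormedSpace ℝ D] {h : D →L[ℝ] ℝ} (hh : ‖h‖ ≤ 1)
    {u : D} (hu : ‖u‖ ≤ 1) : |h u| ≤ 1 := by
  have h1 := h.le_opNorm u
  rw [Real.norm_eq_abs] at h1
  refine h1.trans ?_
  nlinarith [norm_nonneg h, norm_nonneg u]

theorem find {D : Type} [NormedAddCommGroup D] [NormedSpace ℝ D] (hD : DP D) {x : D} (hx : x ≠ 0)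
    {g : D →L[ℝ] ℝ} (hg : ‖g‖ = 1) {η : ℝ} (hη : 0 < η) (hη1 : η ≤ 1 / 4) :
    ∃ (y : D) (h : D →L[ℝ] ℝ), ‖y‖ ≤ 1 ∧ ‖h‖ ≤ 1 ∧ 1 - η < h y ∧ 1 - η < g y ∧
      1 - η < h (‖x‖⁻¹ • x) := by
  have hx0 : 0 < ‖x‖ := norm_pos_iff.2 hx
  set x' : D := ‖x‖⁻¹ • x with hx'
  have hx1 : ‖x'‖ = 1 := by
    rw [hx', norm_smul, norm_inv, norm_norm, inv_mul_cancel₀ hx0.ne']
  have h2 : ‖ContinuousLinearMap.id ℝ D + g.smulRight x'‖ = 2 := by
    rw [hD g x', ContinuousLinearMap.norm_smulRight_apply, hg, hx1]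
    norm_num
  obtain ⟨y, hy, hy2⟩ : ∃ y : D, ‖y‖ = 1 ∧ 2 - η < ‖y + g y • x'‖ := by
    by_contra hcon
    push Not at hcon
    have h3 : ‖ContinuousLinearMap.id ℝ D + g.smulRight x'‖ ≤ 2 - η := by
      refine ContinuousLinearMap.opNorm_le_of_unit_norm (by linarith) fun y hy => ?_
      simpa using hcon y hy
    linarith
  obtain ⟨h, hh, hh2⟩ := exists_dual_vector'' ℝ (y + g y • x')
  have h4 : h y + g y * h x' = ‖y + g y • x'‖ := by
    have h5 := hh2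
    rw [map_add, map_smul, smul_eq_mul] at h5
    simpa using h5
  have a1 := abs_le hh hy.le
  have a2 := abs_le hh hx1.le
  have a3 := abs_le hg.le hy.le
  rw [_root_.abs_le] at a1 a2 a3
  have h6 : 1 - η < g y * h x' := by linarith
  have h7 : g y * h x' ≤ 1 := by nlinarith
  have h8 : 1 - η < h y := by linarith
  rcases lt_trichotomy (g y) 0 with hneg | hz | hpos
  · have h9 : h x' < 0 := by
      by_contra hcon
      push Not at hcon
      nlinarith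
    refine ⟨-y, -h, by rw [norm_neg, hy], by rw [norm_neg]; exact hh, ?_, ?_, ?_⟩
    · simpa using h8
    · rw [map_neg]
      nlinarith
    · rw [ContinuousLinearMap.neg_apply]
      nlinarith
  · rw [hz, zero_mul] at h6
    linarith
  · have h9 : 0 < h x' := by
      by_contra hcon
      push Not at hcon
      nlinarith
    refine ⟨y, h, hy.le, hh, h8, ?_, ?_⟩
    · nlinarith
    · nlinarith

theorem t : S_SUB := by
  intro D _ _ hD x g hg ε hε
  by_cases hx : x = 0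
  · refine ⟨g, ε, hg, hε, fun u _ h2 => ⟨h2, ?_⟩⟩
    have h3 := g.le_opNorm u
    rw [hg, one_mul, Real.norm_eq_abs] at h3
    have h4 := le_abs_self (g u)
    rw [hx, norm_zero, zero_add, zero_add]
    linarith
  have hx0 : 0 < ‖x‖ := norm_pos_iff.2 hx
  obtain ⟨η, hη, hη1, hη2⟩ : ∃ η : ℝ, 0 < η ∧ η ≤ 1 / 4 ∧ (‖x‖ + 2) * η ≤ ε / 2 := by
    refine ⟨min (1 / 4) (ε / 2 / (‖x‖ + 2)), by positivity, min_le_left _ _, ?_⟩
    have h1 := min_le_right (1 / 4) (ε / 2 / (‖x‖ + 2))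
    have h2 : 0 < ‖x‖ + 2 := by positivity
    rw [le_div_iff₀ h2] at h1
    linarith
  obtain ⟨δ, hδ, hδ1, hδ2⟩ : ∃ δ : ℝ, 0 < δ ∧ δ ≤ 1 / 2 ∧ 2 * δ ≤ ε / 2 := by
    refine ⟨min (1 / 2) (ε / 4), by positivity, min_le_left _ _, ?_⟩
    have h1 := min_le_right (1 / 2 : ℝ) (ε / 4)
    linarith
  obtain ⟨y, h, hy, hh, h1, h2, h3⟩ := find hD hx hg hη hη1
  set N := ‖g + h‖ with hN
  have hN1 : 2 - 2 * η ≤ N := by
    have h4 := (g + h).le_opNorm y
    rw [Real.norm_eq_abs] at h4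
    have h5 := le_abs_self ((g + h) y)
    rw [ContinuousLinearMap.add_apply] at h4 h5
    have h6 : ‖g + h‖ * ‖y‖ ≤ ‖g + h‖ * 1 := mul_le_mul_of_nonneg_left hy (norm_nonneg _)
    rw [mul_one] at h6
    linarith
  have hN0 : 0 < N := by linarith
  refine ⟨N⁻¹ • (g + h), δ, ?_, hδ, fun u hu h4 => ?_⟩
  · rw [norm_smul, norm_inv, ← hN, Real.norm_of_nonneg hN0.le, inv_mul_cancel₀ hN0.ne']
  · rw [ContinuousLinearMap.smul_apply, ContinuousLinearMap.add_apply, smul_eq_mul,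
      lt_inv_mul_iff₀ hN0] at h4
    have a1 := (_root_.abs_le.1 (abs_le hg.le hu)).2
    have a2 := (_root_.abs_le.1 (abs_le hh hu)).2
    have h5 : 2 - 2 * η - 2 * δ < g u + h u := by nlinarith
    have h6 : h x = ‖x‖ * h (‖x‖⁻¹ • x) := by
      rw [map_smul, smul_eq_mul, ← mul_assoc, mul_inv_cancel₀ hx0.ne', one_mul]
    have h7 : h (x + u) ≤ ‖x + u‖ := by
      have h8 := h.le_opNorm (x + u)
      rw [Real.norm_eq_abs] at h8
      have h9 := le_abs_self (h (x + u))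
      have h10 : ‖h‖ * ‖x + u‖ ≤ 1 * ‖x + u‖ := mul_le_mul_of_nonneg_right hh (norm_nonneg _)
      linarith
    rw [map_add, h6] at h7
    refine ⟨by nlinarith, ?_⟩
    nlinarith

end Pool.Agent.H32DG.SUB
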