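import Pool.Agent.H32DG.Stm

/-!
Stub SUR of project H32DG (helper32), proof by helper34: a separable Banach space is a quotient of the space of
absolutely summable real sequences.
-/

set_option autoImplicit false

open scoped ENNReal

namespace Pool.Agent.H32DG.SUR

theorem summ (c : L1 ℝ) : Summable fun n => ‖c n‖ := by
  have h := (lp.memℓp c).summable (by simp)
  simpa using h

theorem nrm (c : L1 ℝ) : ‖c‖ = ∑' n, ‖c n‖ := by
  rw [lp.norm_eq_tsum_rpow (by simp)]
  simp

/-- the operator with given values at the unit vectors -/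
theorem op (Z : Type) [NormedAddCommGroup Z] [NormedSpace ℝ Z] [CompleteSpace Z] (x : ℕ → Z) (hx : ∀ n, ‖x n‖ ≤ 1) :
    ∃ q : L1 ℝ →L[ℝ] Z, ∀ c : L1 ℝ, q c = ∑' n, c n • x n := by
  have hs : ∀ c : L1 ℝ, Summable fun n => ‖c n • x n‖ := fun c =>
    Summable.of_nonneg_of_le (fun n => norm_nonneg _) (fun n => by
      rw [norm_smul]
      exact mul_le_of_le_one_right (norm_nonneg _) (hx n)) (summ c)
  let L : L1 ℝ →ₗ[ℝ] Z :=
    { toFun := fun c => ∑' n, c n • x n
      map_add' := fun c d => by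
        rw [← (hs c).of_norm.tsum_add (hs d).of_norm]
        exact tsum_congr fun n => by rw [lp.coeFn_add, Pi.add_apply, add_smul]
      map_smul' := fun r c => by
        rw [RingHom.id_apply, ← (hs c).of_norm.tsum_const_smul]
        exact tsum_congr fun n => by rw [lp.coeFn_smul, Pi.smul_apply, smul_assoc] }
  refine ⟨L.mkContinuous 1 fun c => ?_, fun c => rfl⟩
  rw [one_mul, nrm]
  refine (norm_tsum_le_tsum_norm (hs c)).trans ((hs c).tsum_le_tsum (fun n => ?_) (summ c))
  rw [norm_smul]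
  exact mul_le_of_le_one_right (norm_nonneg _) (hx n)

theorem onto (Z : Type) [NormedAddCommGroup Z] [NormedSpace ℝ Z] [CompleteSpace Z]
    [TopologicalSpace.SeparableSpace Z] : ∃ q : L1 ℝ →L[ℝ] Z, Function.Surjective q := by
  obtain ⟨e, he⟩ := exists_surjective_nat (ℕ →₀ ℤ)
  let S : Submodule ℤ Z := LinearMap.range (Finsupp.linearCombination ℤ (TopologicalSpace.denseSeq Z))
  let y : ℕ → Z := fun n => Finsupp.linearCombination ℤ (TopologicalSpace.denseSeq Z) (e n)
  obtain ⟨q, hq⟩ := op Z (fun n => ‖y n‖⁻¹ • y n) (fun n => by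
    rw [norm_smul, norm_inv, norm_norm]
    exact inv_mul_le_one)
  refine ⟨q, ?_⟩
  let K : AddSubgroup Z := S.toAddSubgroup
  have hK : Dense (K : Set Z) := by
    refine (TopologicalSpace.denseRange_denseSeq Z).mono ?_
    rintro _ ⟨n, rfl⟩
    refine ⟨Finsupp.single n 1, ?_⟩
    simp
  let f : NormedAddGroupHom (L1 ℝ) Z := (q : L1 ℝ →+ Z).mkNormedAddGroupHom ‖q‖ (fun v => q.le_opNorm v)
  have hf : f.SurjectiveOnWith K 1 := by
    intro h hh
    obtain ⟨s, hs⟩ := hh
    obtain ⟨n, hn⟩ := he s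
    have hyn : y n = h := by
      simp only [y, hn, hs]
    refine ⟨lp.single 1 n ‖h‖, ?_, ?_⟩
    · change q (lp.single 1 n ‖h‖) = h
      rw [hq, tsum_eq_single n]
      · rw [lp.single_apply_self, hyn]
        by_cases h0 : h = 0
        · simp [h0]
        · rw [smul_smul, mul_inv_cancel₀ (norm_ne_zero_iff.2 h0), one_smul]
      · intro m hm
        rw [lp.single_apply_ne _ _ _ hm, zero_smul]
    · rw [lp.norm_single (by simp), norm_norm, one_mul]
  have h2 := controlled_closure_of_complete one_pos one_pos hf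
  intro z
  have hz : z ∈ K.topologicalClosure := hK z
  obtain ⟨g, hg, _⟩ := h2 z hz
  exact ⟨g, hg⟩

/-- composition with an injective map of the index set -/
theorem cmp (i : ℕ → ℕ) (hi : Function.Injective i) : ∃ q : L1 ℝ →L[ℝ] L1 ℝ, ∀ c n, q c n = c (i n) := by
  have hs : ∀ c : L1 ℝ, Summable fun n => ‖c (i n)‖ := fun c => (summ c).comp_injective hi
  let L : L1 ℝ →ₗ[ℝ] L1 ℝ :=
    { toFun := fun c => ⟨fun n => c (i n), memℓp_gen (by simpa using hs c)⟩
      map_add' := fun c d => by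
        ext n
        rfl
      map_smul' := fun r c => by
        ext n
        rfl }
  refine ⟨L.mkContinuous 1 fun c => ?_, fun c n => rfl⟩
  rw [one_mul, nrm, nrm]
  exact (hs c).tsum_le_tsum_of_inj i hi (fun m _ => norm_nonneg _) (fun n => le_rfl) (summ c)

theorem t : S_SUR := by
  intro Z _ _ _ _
  obtain ⟨q, hq⟩ := onto Z
  obtain ⟨E, hE⟩ := cmp (fun n => 2 * n) (fun a b h => by
    dsimp only at h
    omega)
  obtain ⟨O, hO⟩ := cmp (fun n => 2 * n + 1) (fun a b h => by
    dsimp only at h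
    omega)
  refine ⟨(q.comp E).prod O, ?_⟩
  rintro ⟨z, e⟩
  obtain ⟨c, hc⟩ := hq z
  obtain ⟨u, hu⟩ : ∃ u : ℕ → ℝ, u = fun m => if m % 2 = 0 then c (m / 2) else e (m / 2) := ⟨_, rfl⟩
  have hu0 : ∀ k, u (2 * k) = c k := by
    intro k
    rw [hu]
    dsimp only
    rw [if_pos (by omega), show 2 * k / 2 = k by omega]
  have hu1 : ∀ k, u (2 * k + 1) = e k := by
    intro k
    rw [hu]
    dsimp only
    rw [if_neg (by omega), show (2 * k + 1) / 2 = k by omega]
  clear hu
  have he : HasSum (fun k : ℕ => (fun m => ‖u m‖) (2 * k)) (∑' n, ‖c n‖) := by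
    have : (fun k : ℕ => (fun m => ‖u m‖) (2 * k)) = fun k => ‖c k‖ := by
      funext k
      dsimp only
      rw [hu0]
    rw [this]
    exact (summ c).hasSum
  have ho : HasSum (fun k : ℕ => (fun m => ‖u m‖) (2 * k + 1)) (∑' n, ‖e n‖) := by
    have : (fun k : ℕ => (fun m => ‖u m‖) (2 * k + 1)) = fun k => ‖e k‖ := by
      funext k
      dsimp only
      rw [hu1]
    rw [this]
    exact (summ e).hasSum
  have h1 : Summable (fun m => ‖u m‖) := (HasSum.even_add_odd (f := fun m => ‖u m‖) he ho).summable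
  have h2 : Summable fun m : ℕ => ‖u m‖ ^ (1 : ℝ≥0∞).toReal := by
    simp only [ENNReal.toReal_one, Real.rpow_one]
    exact h1
  obtain ⟨w, hw⟩ : ∃ w : L1 ℝ, ∀ m, w m = u m := ⟨⟨u, memℓp_gen h2⟩, fun m => rfl⟩
  have h3 : E w = c := by
    ext n
    rw [hE, hw, hu0]
  have h4 : O w = e := by
    ext n
    rw [hO, hw, hu1]
  refine ⟨w, Prod.ext ?_ ?_⟩
  · rw [ContinuousLinearMap.prod_apply, ContinuousLinearMap.comp_apply, h3, hc]
  · rw [ContinuousLinearMap.prod_apply, h4]

end Pool.Agent.H32DG.SUR
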