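import Pool.Agent.H32DG.Stm

set_option autoImplicit false

open Set Filter Topology
open scoped ENNReal

namespace Pool.Agent.H32DG.SURb

theorem sum_norm (D : Type) [NormedAddCommGroup D] (c : L1 D) : HasSum (fun n => ‖c n‖) ‖c‖ := by
  have h := lp.hasSum_norm (p := 1) (by simp) c
  simpa using h

theorem P_mem (φ : ℕ → ℕ) (hφ : Function.Injective φ) (c : L1 ℝ) : Memℓp (fun n => c (φ n)) 1 :=
  memℓp_gen (by
    have h : Summable (fun n => ‖c (φ n)‖) := (sum_norm ℝ c).summable.comp_injective hφ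
    simpa using h)

/-- reindexing -/
noncomputable def P (φ : ℕ → ℕ) (hφ : Function.Injective φ) : L1 ℝ →L[ℝ] L1 ℝ :=
  LinearMap.mkContinuous
    { toFun := fun c => ⟨fun n => c (φ n), P_mem φ hφ c⟩
      map_add' := fun c d => by
        ext n
        rfl
      map_smul' := fun r c => by
        ext n
        rfl } 1 (by
    intro c
    rw [one_mul]
    have h1 := sum_norm ℝ (⟨fun n => c (φ n), P_mem φ hφ c⟩ : L1 ℝ)
    have h2 := sum_norm ℝ c
    have h3 : ∑' n, ‖c (φ n)‖ ≤ ∑' n, ‖c n‖ :=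
      tsum_comp_le_tsum_of_inj h2.summable (fun n => norm_nonneg _) hφ
    rw [h2.tsum_eq] at h3
    have h4 := h1.tsum_eq
    exact h4 ▸ h3)

theorem P_apply (φ : ℕ → ℕ) (hφ : Function.Injective φ) (c : L1 ℝ) (n : ℕ) : P φ hφ c n = c (φ n) := rfl

variable (Z : Type) [NormedAddCommGroup Z] [NormedSpace ℝ Z] [CompleteSpace Z]

theorem sm (e : ℕ → Z) (he : ∀ n, ‖e n‖ ≤ 1) (c : L1 ℝ) : Summable fun n => c n • e n := by
  refine Summable.of_norm_bounded (sum_norm ℝ c).summable fun n => ?_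
  rw [norm_smul]
  exact mul_le_of_le_one_right (norm_nonneg _) (he n)

noncomputable def q1 (e : ℕ → Z) (he : ∀ n, ‖e n‖ ≤ 1) : L1 ℝ →L[ℝ] Z :=
  LinearMap.mkContinuous
    { toFun := fun c => ∑' n, c n • e n
      map_add' := fun c d => by
        rw [← (sm Z e he c).tsum_add (sm Z e he d)]
        refine tsum_congr fun n => ?_
        rw [← add_smul]
        rfl
      map_smul' := fun r c => by
        rw [RingHom.id_apply, ← (sm Z e he c).tsum_const_smul r]
        refine tsum_congr fun n => ?_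
        rw [smul_smul]
        rfl } 1 (by
    intro c
    rw [one_mul]
    refine tsum_of_norm_bounded (sum_norm ℝ c) fun n => ?_
    rw [norm_smul]
    exact mul_le_of_le_one_right (norm_nonneg _) (he n))

theorem q1_single (e : ℕ → Z) (he : ∀ n, ‖e n‖ ≤ 1) (n : ℕ) : q1 Z e he (lp.single 1 n (1 : ℝ)) = e n := by
  show ∑' m, (lp.single 1 n (1 : ℝ) : L1 ℝ) m • e m = e n
  rw [tsum_eq_single n]
  · rw [lp.single_apply_self, one_smul]
  · intro m hm
    rw [lp.single_apply_ne _ _ _ hm, zero_smul]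

theorem q1_surj [TopologicalSpace.SeparableSpace Z] :
    ∃ (e : ℕ → Z) (he : ∀ n, ‖e n‖ ≤ 1), Function.Surjective (q1 Z e he) := by
  set y := TopologicalSpace.denseSeq Z with hy
  have he : ∀ n, ‖(‖y n‖⁻¹ • y n)‖ ≤ 1 := by
    intro n
    rw [norm_smul, norm_inv, norm_norm]
    exact inv_mul_le_one
  refine ⟨fun n => ‖y n‖⁻¹ • y n, he, fun z => ?_⟩
  have hd : ∀ (x : Z) (k : ℕ), ∃ n, ‖x - y n‖ < (1 / 2) ^ k := by
    intro x k
    obtain ⟨n, hn⟩ := (TopologicalSpace.denseRange_denseSeq Z).exists_dist_lt x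
      (show (0 : ℝ) < (1 / 2) ^ k by positivity)
    exact ⟨n, by rwa [dist_eq_norm] at hn⟩
  choose N hN using hd
  let r : ℕ → Z := fun k => Nat.rec z (fun k x => x - y (N x k)) k
  have hr0 : r 0 = z := rfl
  have hr : ∀ k, r (k + 1) = r k - y (N (r k) k) := fun k => rfl
  have hrn : ∀ k, ‖r (k + 1)‖ ≤ (1 / 2) ^ k := fun k => by
    rw [hr]
    exact (hN (r k) k).le
  have hlim : Tendsto r atTop (𝓝 0) := by
    rw [← tendsto_add_atTop_iff_nat 1]
    exact squeeze_zero_norm hrn (tendsto_pow_atTop_nhds_zero_of_lt_one (by norm_num) (by norm_num))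
  set v : ℕ → Z := fun k => y (N (r k) k) with hv
  have hvr : ∀ k, v k = r k - r (k + 1) := fun k => by
    rw [hr]
    simp [hv]
  have hvs : Summable fun k => ‖v k‖ := by
    rw [← summable_nat_add_iff 1]
    refine Summable.of_nonneg_of_le (fun k => norm_nonneg _) (fun k => ?_)
      ((summable_geometric_of_lt_one (by norm_num) (by norm_num : (1 / 2 : ℝ) < 1)).mul_left 2)
    have h0 : ‖v (k + 1)‖ = ‖r (k + 1) - r (k + 1 + 1)‖ := congrArg norm (hvr (k + 1))
    rw [h0]
    have h1 := norm_sub_le (r (k + 1)) (r (k + 1 + 1))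
    have h2 := hrn k
    have h3 := hrn (k + 1)
    have h4 : ((1 : ℝ) / 2) ^ (k + 1) ≤ (1 / 2) ^ k := by
      rw [pow_succ]
      have : (0 : ℝ) < (1 / 2) ^ k := by positivity
      linarith
    linarith
  have hvz : HasSum v z := by
    have h1 : HasSum v (∑' k, v k) := hvs.of_norm.hasSum
    have h2 : Tendsto (fun n => ∑ k ∈ Finset.range n, v k) atTop (𝓝 z) := by
      have h3 : (fun n => ∑ k ∈ Finset.range n, v k) = fun n => z - r n := by
        funext n
        induction n with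
        | zero => simp [hr0]
        | succ n ih =>
          rw [Finset.sum_range_succ, ih, hvr]
          abel
      rw [h3]
      simpa using tendsto_const_nhds.sub hlim
    have h4 := tendsto_nhds_unique h1.tendsto_sum_nat h2
    rwa [h4] at h1
  have hcs : Summable fun k => ‖v k‖ • (lp.single 1 (N (r k) k) (1 : ℝ) : L1 ℝ) := by
    refine Summable.of_norm_bounded hvs fun k => ?_
    rw [norm_smul, norm_norm, lp.norm_single (by simp)]
    simp
  refine ⟨∑' k, ‖v k‖ • (lp.single 1 (N (r k) k) (1 : ℝ) : L1 ℝ), ?_⟩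
  have h5 := hcs.hasSum.mapL (q1 Z (fun n => ‖y n‖⁻¹ • y n) he)
  have h6 : (fun k => q1 Z (fun n => ‖y n‖⁻¹ • y n) he (‖v k‖ • (lp.single 1 (N (r k) k) (1 : ℝ) : L1 ℝ))) = v := by
    funext k
    rw [map_smul, q1_single, smul_smul]
    by_cases h0 : v k = 0
    · simp only [h0, norm_zero, zero_mul, zero_smul]
    · have : ‖y (N (r k) k)‖ = ‖v k‖ := rfl
      rw [this, mul_inv_cancel₀ (norm_ne_zero_iff.2 h0), one_smul]
  rw [h6] at h5
  exact h5.unique hvz

theorem t : S_SUR := by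
  intro Z _ _ _ _
  obtain ⟨e, he, hs⟩ := q1_surj Z
  have i0 : Function.Injective (fun n : ℕ => 2 * n) := fun a b h => by simpa using h
  have i1 : Function.Injective (fun n : ℕ => 2 * n + 1) := fun a b h => by simpa using h
  refine ⟨((q1 Z e he).comp (P _ i0)).prod (P _ i1), fun ⟨z, w⟩ => ?_⟩
  obtain ⟨c', hc'⟩ := hs z
  let f : ℕ → ℝ := fun n => if n % 2 = 0 then c' (n / 2) else w (n / 2)
  have f0 : ∀ n, f (2 * n) = c' n := fun n => by
    have h1 : (2 * n) % 2 = 0 := by omega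
    have h2 : (2 * n) / 2 = n := by omega
    simp [f, h2]
  have f1 : ∀ n, f (2 * n + 1) = w n := fun n => by
    have h1 : (2 * n + 1) % 2 = 1 := by omega
    have h2 : (2 * n + 1) / 2 = n := by omega
    simp [f, h1, h2]
  have hf : Summable fun n => ‖f n‖ := by
    have h1 : HasSum (fun n => ‖f (2 * n)‖) ‖c'‖ := by
      simp only [f0]
      exact sum_norm ℝ c'
    have h2 : HasSum (fun n => ‖f (2 * n + 1)‖) ‖w‖ := by
      simp only [f1]
      exact sum_norm ℝ w
    exact (HasSum.even_add_odd (f := fun n => ‖f n‖) h1 h2).summable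
  have hm : Memℓp f 1 := memℓp_gen (by simpa using hf)
  refine ⟨(⟨f, hm⟩ : L1 ℝ), ?_⟩
  refine Prod.ext ?_ ?_
  · show q1 Z e he (P _ i0 ⟨f, hm⟩) = z
    have : P _ i0 (⟨f, hm⟩ : L1 ℝ) = c' := by
      ext n
      exact f0 n
    rw [this, hc']
  · show P _ i1 (⟨f, hm⟩ : L1 ℝ) = w
    ext n
    exact f1 n

end Pool.Agent.H32DG.SURb
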