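import Mathlib
import Pool.Agent.H32DG.Stm

/-!
# Stub UDP: the space of integrable functions on the unit interval has the Daugavet property
-/

set_option autoImplicit false

open MeasureTheory
open scoped ENNReal

namespace Pool.Agent.H32DG.UDP

open Pool.Agent.H32DG

/-- Lebesgue measure on the unit interval -/
noncomputable abbrev mu : Measure ℝ := volume.restrict (Set.Icc (0 : ℝ) 1)

/-- the restriction of a function to a set -/
noncomputable def P (A : Set ℝ) (hA : MeasurableSet A) (f : U) : U := ((Lp.memLp f).indicator hA).toLp (A.indicator f)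

lemma P_coe (A : Set ℝ) (hA : MeasurableSet A) (f : U) : (P A hA f : ℝ → ℝ) =ᵐ[mu] A.indicator f :=
  MemLp.coeFn_toLp _

lemma P_norm (A : Set ℝ) (hA : MeasurableSet A) (f : U) : ‖P A hA f‖ = ∫ t in A, |f t| ∂mu := by
  rw [L1.norm_eq_integral_norm, ← integral_indicator hA]
  refine integral_congr_ae ?_
  filter_upwards [P_coe A hA f] with t ht
  rw [ht]
  by_cases h : t ∈ A
  · rw [Set.indicator_of_mem h, Set.indicator_of_mem h, Real.norm_eq_abs]
  · rw [Set.indicator_of_notMem h, Set.indicator_of_notMem h, norm_zero]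

lemma P_union (A B : Set ℝ) (hA : MeasurableSet A) (hB : MeasurableSet B) (hAB : Disjoint A B) (f : U) :
    P (A ∪ B) (hA.union hB) f = P A hA f + P B hB f := by
  apply Lp.ext
  filter_upwards [P_coe A hA f, P_coe B hB f, P_coe (A ∪ B) (hA.union hB) f,
    Lp.coeFn_add (P A hA f) (P B hB f)] with t h1 h2 h3 h4
  rw [h3, h4, Pi.add_apply, h1, h2, Set.indicator_union_of_disjoint hAB]

lemma P_norm_union (A B : Set ℝ) (hA : MeasurableSet A) (hB : MeasurableSet B) (hAB : Disjoint A B) (f : U) :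
    ‖P (A ∪ B) (hA.union hB) f‖ = ‖P A hA f‖ + ‖P B hB f‖ := by
  rw [P_norm, P_norm, P_norm]
  have h := (L1.integrable_coeFn f).abs
  exact setIntegral_union hAB hB h.integrableOn h.integrableOn

/-- the main inequality -/
lemma main_ineq (x u : U) (A : Set ℝ) (hA : MeasurableSet A) (hu : ∀ᵐ t ∂mu, t ∉ A → u t = 0) :
    ‖x‖ + ‖u‖ - 2 * ‖P A hA x‖ ≤ ‖x + u‖ := by
  rw [P_norm, L1.norm_eq_integral_norm, L1.norm_eq_integral_norm, L1.norm_eq_integral_norm,
    ← integral_indicator hA]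
  have hx := (L1.integrable_coeFn x).norm
  have hu' := (L1.integrable_coeFn u).norm
  have hxA : Integrable (A.indicator fun t => |x t|) mu := ((L1.integrable_coeFn x).abs).indicator hA
  have hxu := (L1.integrable_coeFn (x + u)).norm
  have e : (∫ t, ‖x t‖ ∂mu) + (∫ t, ‖u t‖ ∂mu) - 2 * ∫ t, A.indicator (fun t => |x t|) t ∂mu =
      ∫ t, (‖x t‖ + ‖u t‖ - 2 * A.indicator (fun t => |x t|) t) ∂mu := by
    have ha : Integrable (fun t => ‖x t‖ + ‖u t‖) mu := hx.add hu'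
    have hb : Integrable (fun t => 2 * A.indicator (fun t => |x t|) t) mu := hxA.const_mul 2
    rw [integral_sub ha hb, integral_add hx hu', integral_const_mul]
  rw [e]
  refine integral_mono_ae ((hx.add hu').sub (hxA.const_mul 2)) hxu ?_
  filter_upwards [hu, Lp.coeFn_add x u] with t h1 h2
  show ‖x t‖ + ‖u t‖ - 2 * A.indicator (fun t => |x t|) t ≤ ‖(x + u : U) t‖
  rw [h2, Pi.add_apply, Real.norm_eq_abs, Real.norm_eq_abs, Real.norm_eq_abs]
  by_cases h : t ∈ A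
  · rw [Set.indicator_of_mem h]
    have h3 : |u t| ≤ |x t + u t| + |x t| := by
      have := abs_sub (x t + u t) (x t)
      rw [add_sub_cancel_left] at this
      exact this
    linarith
  · rw [Set.indicator_of_notMem h, h1 h, abs_zero, add_zero, add_zero, mul_zero, sub_zero]

/-- an interval -/
def Aj (N j : ℕ) : Set ℝ := {t : ℝ | ⌊(N : ℝ) * t⌋₊ = j}

/-- the intervals before -/
def Bj (N j : ℕ) : Set ℝ := {t : ℝ | ⌊(N : ℝ) * t⌋₊ < j}

lemma Aj_meas (N j : ℕ) : MeasurableSet (Aj N j) :=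
  (Nat.measurable_floor.comp (measurable_const.mul measurable_id)) (measurableSet_singleton j)

lemma Bj_meas (N j : ℕ) : MeasurableSet (Bj N j) :=
  (Nat.measurable_floor.comp (measurable_const.mul measurable_id)) (measurableSet_Iio (a := j))

lemma Bj_succ (N j : ℕ) : Bj N (j + 1) = Bj N j ∪ Aj N j := by
  ext t
  show ⌊(N : ℝ) * t⌋₊ < j + 1 ↔ ⌊(N : ℝ) * t⌋₊ < j ∨ ⌊(N : ℝ) * t⌋₊ = j
  omega

lemma Bj_disj (N j : ℕ) : Disjoint (Bj N j) (Aj N j) := by
  rw [Set.disjoint_left]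
  intro t h1 h2
  have h1' : ⌊(N : ℝ) * t⌋₊ < j := h1
  have h2' : ⌊(N : ℝ) * t⌋₊ = j := h2
  omega

lemma Aj_small (N j : ℕ) (hN : 0 < N) : mu (Aj N j) ≤ ENNReal.ofReal (1 / N) := by
  have hN' : (0 : ℝ) < N := by exact_mod_cast hN
  rw [Measure.restrict_apply (Aj_meas N j)]
  have h1 : Aj N j ∩ Set.Icc (0 : ℝ) 1 ⊆ Set.Icc ((j : ℝ) / N) (((j : ℝ) + 1) / N) := by
    rintro t ⟨h1, h2⟩
    have h1' : ⌊(N : ℝ) * t⌋₊ = j := h1
    rw [Nat.floor_eq_iff (mul_nonneg hN'.le h2.1)] at h1'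
    constructor
    · rw [div_le_iff₀ hN']
      linarith [h1'.1]
    · rw [le_div_iff₀ hN']
      linarith [h1'.2]
  refine (measure_mono h1).trans ?_
  rw [Real.volume_Icc]
  apply ENNReal.ofReal_le_ofReal
  apply le_of_eq
  ring

lemma P_congr (A B : Set ℝ) (h : A = B) (hA : MeasurableSet A) (hB : MeasurableSet B) (f : U) :
    P A hA f = P B hB f := by
  subst h
  rfl

lemma P_zero (N : ℕ) (f : U) : P (Bj N 0) (Bj_meas N 0) f = 0 := by
  apply Lp.ext
  filter_upwards [P_coe (Bj N 0) (Bj_meas N 0) f, Lp.coeFn_zero ℝ 1 mu] with t h1 h2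
  rw [h1, h2]
  apply Set.indicator_of_notMem
  intro h
  have h' : ⌊(N : ℝ) * t⌋₊ < 0 := h
  omega

lemma P_all (N : ℕ) (f : U) : P (Bj N (N + 1)) (Bj_meas N (N + 1)) f = f := by
  apply Lp.ext
  filter_upwards [P_coe (Bj N (N + 1)) (Bj_meas N (N + 1)) f,
    ae_restrict_mem (measurableSet_Icc : MeasurableSet (Set.Icc (0 : ℝ) 1))] with t h1 h2
  rw [h1]
  apply Set.indicator_of_mem
  show ⌊(N : ℝ) * t⌋₊ < N + 1
  have h3 : (N : ℝ) * t ≤ N := by
    have := mul_le_mul_of_nonneg_left h2.2 (Nat.cast_nonneg (α := ℝ) N)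
    linarith
  have h4 : ⌊(N : ℝ) * t⌋₊ ≤ N := by
    have := Nat.floor_le_floor h3
    rwa [Nat.floor_natCast] at this
  omega

/-- some interval carries the norm -/
lemma exists_j (g : U →L[ℝ] ℝ) (w : U) (e : ℝ) (he1 : e ≤ 1) (hw : ‖w‖ ≤ 1) (hg : 1 - e < g w) (N : ℕ) :
    ∃ j : ℕ, (1 - e) * ‖P (Aj N j) (Aj_meas N j) w‖ < g (P (Aj N j) (Aj_meas N j) w) := by
  by_contra hcon
  push Not at hcon
  have key : ∀ k : ℕ, g (P (Bj N k) (Bj_meas N k) w) ≤ (1 - e) * ‖P (Bj N k) (Bj_meas N k) w‖ := by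
    intro k
    induction k with
    | zero => rw [P_zero, map_zero, norm_zero, mul_zero]
    | succ k ih =>
      rw [P_congr (Bj N (k + 1)) (Bj N k ∪ Aj N k) (Bj_succ N k) (Bj_meas N (k + 1))
        ((Bj_meas N k).union (Aj_meas N k)), P_norm_union _ _ (Bj_meas N k) (Aj_meas N k) (Bj_disj N k),
        P_union _ _ (Bj_meas N k) (Aj_meas N k) (Bj_disj N k), map_add]
      have := hcon k
      linarith
  have h1 := key (N + 1)
  rw [P_all] at h1
  have h2 := mul_le_mul_of_nonneg_left hw (by linarith : 0 ≤ 1 - e)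
  linarith

theorem t (hSL : S_SL) : S_UDP := by
  apply hSL U
  · refine ⟨(Lp.memLp (indicatorConstLp 1 measurableSet_Icc (by simp : mu (Set.Icc (0:ℝ) 1) ≠ ∞) (1 : ℝ))).toLp _, ?_⟩
    rw [Lp.toLp_coeFn]
    intro h
    have h1 := congrArg norm h
    rw [norm_zero, norm_indicatorConstLp one_ne_zero ENNReal.one_ne_top] at h1
    simp [Measure.real] at h1
  intro x hx g hg ε hε
  obtain ⟨e, he, he1, heε⟩ : ∃ e : ℝ, 0 < e ∧ e ≤ 1 ∧ 3 * e ≤ ε :=
    ⟨min 1 (ε / 3), by positivity, min_le_left _ _, by linarith [min_le_right 1 (ε / 3)]⟩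
  -- a vector near the supremum
  obtain ⟨w, hw, hgw⟩ : ∃ w : U, ‖w‖ ≤ 1 ∧ 1 - e < g w := by
    obtain ⟨w, hw, hgw⟩ := g.exists_lt_apply_of_lt_opNorm (r := 1 - e) (by rw [hg]; linarith)
    rcases le_total 0 (g w) with h | h
    · refine ⟨w, hw.le, ?_⟩
      rwa [Real.norm_eq_abs, abs_of_nonneg h] at hgw
    · refine ⟨-w, by rw [norm_neg]; exact hw.le, ?_⟩
      rw [map_neg]
      rwa [Real.norm_eq_abs, abs_of_nonpos h] at hgw
  obtain ⟨δ, hδ, hsm⟩ := (Lp.memLp x).eLpNorm_indicator_le le_rfl ENNReal.one_ne_top he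
  obtain ⟨N, hN⟩ := exists_nat_gt (1 / δ)
  have hN0 : 0 < N := by
    have h1 : (0 : ℝ) < N := lt_trans (by positivity) hN
    exact_mod_cast h1
  have hN' : (0 : ℝ) < N := by exact_mod_cast hN0
  obtain ⟨j, hj⟩ := exists_j g w e he1 hw hgw N
  obtain ⟨v, hv⟩ : ∃ v, v = P (Aj N j) (Aj_meas N j) w := ⟨_, rfl⟩
  rw [← hv] at hj
  have hv0 : v ≠ 0 := by
    intro h
    rw [h, norm_zero, mul_zero, map_zero] at hj
    exact lt_irrefl _ hj
  have hvn : 0 < ‖v‖ := norm_pos_iff.mpr hv0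
  have hxs : ‖P (Aj N j) (Aj_meas N j) x‖ ≤ e := by
    have h1 := hsm (Aj N j) (Aj_meas N j) ((Aj_small N j hN0).trans (ENNReal.ofReal_le_ofReal (by
      rw [div_le_iff₀ hN']
      rw [div_lt_iff₀ hδ] at hN
      linarith)))
    unfold P
    rw [Lp.norm_toLp]
    exact ENNReal.toReal_le_of_le_ofReal he.le h1
  have hun : ‖‖v‖⁻¹ • v‖ = 1 := by
    rw [norm_smul, norm_inv, norm_norm, inv_mul_cancel₀ hvn.ne']
  refine ⟨‖v‖⁻¹ • v, hun.le, ?_, ?_⟩
  · rw [map_smul, smul_eq_mul]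
    have h1 : 1 - e < ‖v‖⁻¹ * g v := by
      rw [inv_mul_eq_div, lt_div_iff₀ hvn]
      exact hj
    linarith
  · have h1 := main_ineq x (‖v‖⁻¹ • v) (Aj N j) (Aj_meas N j) (by
      filter_upwards [Lp.coeFn_smul ‖v‖⁻¹ v, P_coe (Aj N j) (Aj_meas N j) w] with t h1 h2 h3
      rw [h1, Pi.smul_apply, hv, h2, Set.indicator_of_notMem h3, smul_zero])
    rw [hx, hun] at h1
    linarith

end Pool.Agent.H32DG.UDP
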