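import Mathlib
import Pool.Agent.H32DG.Stm

set_option autoImplicit false

/-! Stub UU of project DG (helper1): `ℓ₁(L₁[0,1])` and `L₁[0,1]` are isometric (cut the interval at the points `1 - 2^(-n)`). -/

open MeasureTheory
open scoped ENNReal

namespace Pool.Agent.H32DG.UU

open Set Filter Topology


/-- the measure -/
noncomputable abbrev mu : Measure ℝ := volume.restrict (Set.Icc (0 : ℝ) 1)

noncomputable def a (n : ℕ) : ℝ := 1 - (1 / 2 : ℝ) ^ n

noncomputable def b (n : ℕ) : ℝ := (1 / 2 : ℝ) ^ (n + 1)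

lemma b_pos (n : ℕ) : 0 < b n := by unfold b; positivity

lemma a_succ (n : ℕ) : a n + b n = a (n + 1) := by unfold a b; rw [pow_succ]; ring

lemma a_zero : a 0 = 0 := by unfold a; norm_num

lemma a_lt (n : ℕ) : a n < 1 := by unfold a; have : (0 : ℝ) < (1 / 2) ^ n := by positivity
                                   linarith

lemma a_mono : Monotone a := monotone_nat_of_le_succ (fun n => by rw [← a_succ]; linarith [b_pos n])

lemma a_nonneg (n : ℕ) : 0 ≤ a n := by rw [← a_zero]; exact a_mono (Nat.zero_le n)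

/-- the affine map -/
noncomputable def T (n : ℕ) (t : ℝ) : ℝ := a n + b n * t

lemma T_maps (n : ℕ) : MapsTo (T n) (Icc 0 1) (Icc 0 1) := by
  intro t ht
  unfold T
  have h1 := a_nonneg n
  have h2 := b_pos n
  have h3 := a_succ n
  have h4 := a_lt (n + 1)
  constructor
  · nlinarith [ht.1, ht.2]
  · nlinarith [ht.1, ht.2]

lemma T_mem (n : ℕ) {t : ℝ} (ht : t ∈ Ico (0 : ℝ) 1) : T n t ∈ Ico (a n) (a (n + 1)) := by
  unfold T
  have h2 := b_pos n
  rw [← a_succ n]
  constructor
  · nlinarith [ht.1, ht.2]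
  · nlinarith [ht.1, ht.2]

lemma qmp_vol (n : ℕ) : Measure.QuasiMeasurePreserving (T n) volume volume := by
  refine ⟨?_, ?_⟩
  · unfold T; fun_prop
  · refine Measure.AbsolutelyContinuous.mk fun s hs h0 => ?_
    have hm : Measurable (T n) := by unfold T; fun_prop
    rw [Measure.map_apply hm hs]
    have e : T n ⁻¹' s = (fun t => b n * t) ⁻¹' ((fun t => a n + t) ⁻¹' s) := rfl
    rw [e, Real.volume_preimage_mul_left (b_pos n).ne', measure_preimage_add, h0, mul_zero]

lemma qmp (n : ℕ) : Measure.QuasiMeasurePreserving (T n) mu mu := (qmp_vol n).restrict (T_maps n)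

lemma ii_of (f : U) : IntervalIntegrable f volume 0 1 := by
  have := L1.integrable_coeFn f
  rw [intervalIntegrable_iff_integrableOn_Icc_of_le zero_le_one]
  exact this

lemma ii_comp (f : ℝ → ℝ) (hf : IntervalIntegrable f volume 0 1) (n : ℕ) :
    IntervalIntegrable (fun t => f (T n t)) volume 0 1 := by
  have h1 : IntervalIntegrable f volume (a n) (a (n + 1)) := by
    apply hf.mono_set
    rw [uIcc_of_le (a_mono (Nat.le_succ n)), uIcc_of_le zero_le_one]
    exact Icc_subset_Icc (a_nonneg n) (a_lt _).le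
  have h2 := h1.comp_add_left (a n)
  have h3 := h2.comp_mul_left (c := b n)
  have e1 : (a n - a n) / b n = 0 := by simp
  have e2 : (a (n + 1) - a n) / b n = 1 := by
    rw [← a_succ]; field_simp [(b_pos n).ne']; ring
  rw [e1, e2] at h3
  exact h3

lemma intOn_iff (f : ℝ → ℝ) : Integrable f mu ↔ IntervalIntegrable f volume 0 1 := by
  rw [intervalIntegrable_iff_integrableOn_Icc_of_le zero_le_one]
  rfl

lemma int_comp (f : U) (n : ℕ) : Integrable (fun t => b n * f (T n t)) mu := by
  rw [intOn_iff]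
  exact (ii_comp f (ii_of f) n).const_mul (b n)

/-- the restriction to the `n`-th interval -/
noncomputable def R (n : ℕ) (f : U) : U := (int_comp f n).toL1 _

lemma R_coe (n : ℕ) (f : U) : R n f =ᵐ[mu] fun t => b n * f (T n t) := (int_comp f n).coeFn_toL1

lemma R_add (n : ℕ) (f g : U) : R n (f + g) = R n f + R n g := by
  apply Lp.ext
  have h := (qmp n).ae_eq_comp (Lp.coeFn_add f g)
  filter_upwards [R_coe n (f + g), R_coe n f, R_coe n g, Lp.coeFn_add (R n f) (R n g), h] with t h1 h2 h3 h4 h5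
  have h5' : (f + g : U) (T n t) = f (T n t) + g (T n t) := h5
  rw [h1, h4, Pi.add_apply, h2, h3, h5']
  ring

lemma R_smul (n : ℕ) (c : ℝ) (f : U) : R n (c • f) = c • R n f := by
  apply Lp.ext
  have h := (qmp n).ae_eq_comp (Lp.coeFn_smul c f)
  filter_upwards [R_coe n (c • f), R_coe n f, Lp.coeFn_smul c (R n f), h] with t h1 h2 h4 h5
  have h5' : (c • f : U) (T n t) = c * f (T n t) := h5
  rw [h1, h4, Pi.smul_apply, h2, h5', smul_eq_mul]
  ring

lemma norm_eq (f : U) : ‖f‖ = ∫ t in (0 : ℝ)..1, ‖f t‖ := by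
  rw [L1.norm_eq_integral_norm, intervalIntegral.integral_of_le zero_le_one, integral_Icc_eq_integral_Ioc]

lemma part (f : ℝ → ℝ) (n : ℕ) : ∫ t in (0 : ℝ)..1, ‖b n * f (T n t)‖ = ∫ s in Ico (a n) (a (n + 1)), ‖f s‖ := by
  have e : ∀ t, ‖b n * f (T n t)‖ = b n * ‖f (a n + b n * t)‖ := by
    intro t
    rw [norm_mul, Real.norm_of_nonneg (b_pos n).le]
    rfl
  simp_rw [e]
  rw [intervalIntegral.integral_const_mul, intervalIntegral.mul_integral_comp_add_mul (f := fun s => ‖f s‖)]
  rw [mul_zero, mul_one, add_zero, a_succ, intervalIntegral.integral_of_le (a_mono (Nat.le_succ n)),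
    ← integral_Icc_eq_integral_Ioc, integral_Icc_eq_integral_Ico]

lemma norm_R (n : ℕ) (f : U) : ‖R n f‖ = ∫ s in Ico (a n) (a (n + 1)), ‖f s‖ := by
  rw [norm_eq, ← part]
  apply intervalIntegral.integral_congr_ae_restrict
  rw [uIoc_of_le zero_le_one, Measure.restrict_congr_set Ioc_ae_eq_Icc]
  filter_upwards [R_coe n f] with t ht
  rw [ht]

lemma I_disj : Pairwise (Function.onFun Disjoint (fun n => Ico (a n) (a (n + 1)))) := a_mono.pairwise_disjoint_on_Ico_succ

lemma I_union : ⋃ n, Ico (a n) (a (n + 1)) = Ico (0 : ℝ) 1 := by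
  ext s
  rw [mem_iUnion]
  constructor
  · rintro ⟨n, hn⟩
    exact ⟨le_trans (a_nonneg n) hn.1, lt_trans hn.2 (a_lt _)⟩
  · intro hs
    have hex : ∃ n, s < a (n + 1) := by
      have ht : Tendsto (fun n : ℕ => a (n + 1)) atTop (𝓝 1) := by
        have h1 : Tendsto (fun n : ℕ => (1 / 2 : ℝ) ^ n) atTop (𝓝 0) :=
          tendsto_pow_atTop_nhds_zero_of_lt_one (by norm_num) (by norm_num)
        have h2 := (tendsto_const_nhds (x := (1 : ℝ))).sub h1
        rw [sub_zero] at h2
        exact h2.comp (tendsto_add_atTop_nat 1)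
      exact (ht.eventually (lt_mem_nhds hs.2)).exists
    classical
    refine ⟨Nat.find hex, ?_, Nat.find_spec hex⟩
    rcases Nat.eq_zero_or_pos (Nat.find hex) with h0 | h0
    · rw [h0, a_zero]; exact hs.1
    · have := Nat.find_min hex (m := Nat.find hex - 1) (by omega)
      rw [Nat.sub_add_cancel h0] at this
      exact not_lt.1 this

lemma int01 (f : ℝ → ℝ) : ∫ t, f t ∂mu = ∫ t in Ico (0 : ℝ) 1, f t := integral_Icc_eq_integral_Ico

lemma hasSum_norm (f : U) : HasSum (fun n => ‖R n f‖) ‖f‖ := by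
  have h1 : IntegrableOn (fun s => ‖f s‖) (⋃ n, Ico (a n) (a (n + 1))) volume := by
    rw [I_union]
    have := (L1.integrable_coeFn f).norm
    exact IntegrableOn.mono_set this Ico_subset_Icc_self
  have h2 := hasSum_integral_iUnion (fun n => measurableSet_Ico) I_disj h1
  rw [I_union] at h2
  simp_rw [norm_R]
  rw [L1.norm_eq_integral_norm, int01]
  exact h2

/-- the glued function -/
noncomputable def F (w : ℕ → U) (s : ℝ) : ℝ :=
  ∑' n, (Ico (a n) (a (n + 1))).indicator (fun s => (b n)⁻¹ * w n ((b n)⁻¹ * (s - a n))) s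

lemma F_eq (w : ℕ → U) (n : ℕ) {s : ℝ} (hs : s ∈ Ico (a n) (a (n + 1))) :
    F w s = (b n)⁻¹ * w n ((b n)⁻¹ * (s - a n)) := by
  unfold F
  rw [tsum_eq_single n]
  · rw [indicator_of_mem hs]
  · intro m hm
    apply indicator_of_notMem
    intro hm'
    exact (disjoint_left.1 (I_disj hm)) hm' hs

lemma F_T (w : ℕ → U) (n : ℕ) {t : ℝ} (ht : t ∈ Ico (0 : ℝ) 1) : b n * F w (T n t) = w n t := by
  rw [F_eq w n (T_mem n ht)]
  have e : (b n)⁻¹ * (T n t - a n) = t := by
    unfold T
    field_simp [(b_pos n).ne']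
    ring
  rw [e]
  field_simp [(b_pos n).ne']

lemma F_on (w : ℕ → U) (n : ℕ) : IntegrableOn (F w) (Ico (a n) (a (n + 1))) volume := by
  have h1 := ii_of (w n)
  have h2 := h1.comp_mul_left (c := (b n)⁻¹)
  have h3 := (h2.comp_sub_right (a n)).const_mul ((b n)⁻¹)
  have e1 : (0 : ℝ) / (b n)⁻¹ + a n = a n := by simp
  have e2 : (1 : ℝ) / (b n)⁻¹ + a n = a (n + 1) := by rw [← a_succ]; simp; ring
  rw [e1, e2, intervalIntegrable_iff_integrableOn_Ico_of_le (a_mono (Nat.le_succ n))] at h3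
  refine h3.congr_fun ?_ measurableSet_Ico
  intro s hs
  exact (F_eq w n hs).symm

lemma ae_Ico : ∀ᵐ t ∂mu, t ∈ Ico (0 : ℝ) 1 := by
  unfold mu
  rw [← Measure.restrict_congr_set Ico_ae_eq_Icc]
  exact ae_restrict_mem measurableSet_Ico

lemma F_norm (w : ℕ → U) (n : ℕ) : ∫ s in Ico (a n) (a (n + 1)), ‖F w s‖ = ‖w n‖ := by
  rw [← part, norm_eq]
  apply intervalIntegral.integral_congr_ae_restrict
  rw [uIoc_of_le zero_le_one, Measure.restrict_congr_set Ioc_ae_eq_Icc]
  filter_upwards [ae_Ico] with t ht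
  rw [F_T w n ht]

lemma F_int (w : ℕ → U) (hw : Summable (fun n => ‖w n‖)) : Integrable (F w) mu := by
  have h1 : IntegrableOn (F w) (⋃ n, Ico (a n) (a (n + 1))) volume := by
    apply integrableOn_iUnion_of_summable_integral_norm
    · exact fun n => F_on w n
    · simp_rw [F_norm]
      exact hw
  rw [I_union] at h1
  have : IntegrableOn (F w) (Icc 0 1) volume := by
    rw [integrableOn_Icc_iff_integrableOn_Ico]
    exact h1
  exact this

lemma R_F (w : ℕ → U) (hw : Summable (fun n => ‖w n‖)) (n : ℕ) : R n ((F_int w hw).toL1 _) = w n := by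
  apply Lp.ext
  have h := (qmp n).ae_eq_comp (F_int w hw).coeFn_toL1
  have h6 : ∀ᵐ t ∂mu, t ∈ Ico (0 : ℝ) 1 := ae_Ico
  filter_upwards [R_coe n ((F_int w hw).toL1 _), h, h6] with t h1 h2 h3
  have h2' : ((F_int w hw).toL1 _) (T n t) = F w (T n t) := h2
  rw [h1, h2', F_T w n h3]

lemma mem1 (w : ℕ → U) (hw : Summable (fun n => ‖w n‖)) : Memℓp w 1 := by
  apply memℓp_gen
  simpa using hw

lemma norm1 (w : L1 U) : HasSum (fun n => ‖w n‖) ‖w‖ := by
  have := lp.hasSum_norm (p := 1) (by simp) w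
  simpa using this

/-- the isometry -/
noncomputable def RR : U →ₗᵢ[ℝ] L1 U where
  toFun f := ⟨fun n => R n f, mem1 _ (hasSum_norm f).summable⟩
  map_add' f g := by
    ext1
    funext n
    exact R_add n f g
  map_smul' c f := by
    ext1
    funext n
    exact R_smul n c f
  norm_map' f := by
    exact (norm1 _).unique (hasSum_norm f)

lemma RR_surj : Function.Surjective RR := by
  intro w
  refine ⟨(F_int (fun n => w n) (norm1 w).summable).toL1 _, ?_⟩
  ext1
  funext n
  exact R_F (fun n => w n) (norm1 w).summable n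

theorem t : S_UU := ⟨(LinearIsometryEquiv.ofSurjective RR RR_surj).toContinuousLinearEquiv.symm⟩

end Pool.Agent.H32DG.UU
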