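import Pool.Agent.H32DG.Stm
set_option autoImplicit false
open MeasureTheory Set
open scoped ENNReal
namespace Pool.Agent.H32DG.UU14

noncomputable section

def μ : Measure ℝ := volume.restrict (Icc (0 : ℝ) 1)
def a (n : ℕ) : ℝ := (1 / 2) ^ (n + 1)
def I (n : ℕ) : Set ℝ := Ioc (a n) (2 * a n)
def e (n : ℕ) (t : ℝ) : ℝ := a n * t + a n
def g (n : ℕ) (s : ℝ) : ℝ := (a n)⁻¹ * s - 1

theorem a_pos (n : ℕ) : 0 < a n := by unfold a; positivity
theorem a_le (n : ℕ) : 2 * a n ≤ 1 := by
  unfold a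
  rw [pow_succ]
  have : ((1 : ℝ) / 2) ^ n ≤ 1 := pow_le_one₀ (by norm_num) (by norm_num)
  linarith
theorem mu_eq : μ = volume.restrict (Ioc (0 : ℝ) 1) := by
  unfold μ
  exact (Measure.restrict_congr_set Ioc_ae_eq_Icc).symm
theorem I_sub (n : ℕ) : I n ⊆ Ioc 0 1 := fun s hs => ⟨(a_pos n).trans hs.1, hs.2.trans (a_le n)⟩
theorem ge (n : ℕ) (t : ℝ) : g n (e n t) = t := by
  unfold g e; field_simp [(a_pos n).ne']; ring
theorem eg (n : ℕ) (t : ℝ) : e n (g n t) = t := by
  unfold g e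
  have := (a_pos n).ne'
  field_simp
  ring
theorem e_meas (n : ℕ) : Measurable (e n) := by unfold e; fun_prop
theorem g_meas (n : ℕ) : Measurable (g n) := by unfold g; fun_prop
theorem e_pre (n : ℕ) : e n ⁻¹' (I n) = Ioc 0 1 := by
  ext t
  have h := a_pos n
  simp only [I, e, mem_preimage, mem_Ioc]
  constructor
  · rintro ⟨h1, h2⟩
    constructor <;> nlinarith
  · rintro ⟨h1, h2⟩
    constructor <;> nlinarith
theorem a_lt {n m : ℕ} (h : n < m) : 2 * a m ≤ a n := by
  unfold a
  obtain ⟨k, rfl⟩ := Nat.exists_eq_add_of_lt h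
  have h1 : ((1 : ℝ) / 2) ^ (n + k + 1 + 1) = (1 / 2) ^ (n + 1) * ((1 / 2) ^ k * (1 / 2)) := by ring
  have h2 : ((1 : ℝ) / 2) ^ k ≤ 1 := pow_le_one₀ (by norm_num) (by norm_num)
  have h3 : (0 : ℝ) < (1 / 2) ^ (n + 1) := by positivity
  rw [h1]
  nlinarith
theorem e_self (n : ℕ) (t : ℝ) (ht : t ∈ Ioc (0 : ℝ) 1) : e n t ∈ I n := by
  rw [← e_pre n] at ht
  exact ht
theorem e_mem (n m : ℕ) (t : ℝ) (ht : t ∈ Ioc (0 : ℝ) 1) : e n t ∈ I m ↔ n = m := by
  have h0 := e_self n t ht
  constructor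
  · intro h
    rcases lt_trichotomy n m with h1 | h1 | h1
    · have := a_lt h1
      have h2 := h.2
      have h3 := h0.1
      linarith
    · exact h1
    · have := a_lt h1
      have h2 := h.1
      have h3 := h0.2
      linarith
  · rintro rfl
    exact h0
theorem iUnion_I : ⋃ n, I n = Ioc 0 1 := by
  apply Subset.antisymm
  · exact iUnion_subset I_sub
  · intro s hs
    obtain ⟨n, h1, h2⟩ := exists_nat_pow_near_of_lt_one hs.1 hs.2 (by norm_num : (0 : ℝ) < 1 / 2) (by norm_num)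
    refine mem_iUnion.2 ⟨n, h1, ?_⟩
    unfold a
    rw [pow_succ]
    linarith
theorem I_meas (n : ℕ) : MeasurableSet (I n) := measurableSet_Ioc
theorem I_disj : Pairwise (Function.onFun Disjoint I) := by
  intro n m hnm
  refine Set.disjoint_left.2 fun s hs hs' => hnm ?_
  have h1 : g n s ∈ Ioc (0 : ℝ) 1 := by
    rw [← e_pre n]
    rw [mem_preimage, eg]
    exact hs
  have := (e_mem n m (g n s) h1).1 (by rw [eg]; exact hs')
  exact this
theorem map_e (n : ℕ) : volume.map (e n) = ENNReal.ofReal (a n)⁻¹ • (volume : Measure ℝ) := by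
  have h1 : e n = (fun x => x + a n) ∘ (fun x => a n * x) := by ext x; simp [e]
  rw [h1, ← Measure.map_map (measurable_add_const _) (measurable_const_mul _),
    Real.map_volume_mul_left (a_pos n).ne', abs_of_pos (inv_pos.2 (a_pos n)), Measure.map_smul,
    map_add_right_eq_self]
theorem mp (n : ℕ) : MeasurePreserving (e n) μ (ENNReal.ofReal (a n)⁻¹ • volume.restrict (I n)) := by
  refine ⟨e_meas n, ?_⟩
  rw [mu_eq, ← e_pre n, ← Measure.restrict_map (e_meas n) (I_meas n), map_e, Measure.restrict_smul]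
theorem smul_ne (n : ℕ) : ENNReal.ofReal (a n)⁻¹ ≠ ∞ := ENNReal.ofReal_ne_top
theorem restr_le (n : ℕ) : volume.restrict (I n) ≤ μ := by
  rw [mu_eq]
  exact Measure.restrict_mono_set _ (I_sub n)
theorem qmp (n : ℕ) : Measure.QuasiMeasurePreserving (e n) μ μ := by
  refine ⟨e_meas n, ?_⟩
  rw [(mp n).map_eq]
  exact (Measure.AbsolutelyContinuous.rfl.smul_left _).trans (Measure.absolutelyContinuous_of_le (restr_le n))
theorem memR (n : ℕ) (f : ℝ → ℝ) (hf : MemLp f 1 μ) : MemLp (fun t => a n * f (e n t)) 1 μ := by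
  have h1 : MemLp f 1 (ENNReal.ofReal (a n)⁻¹ • volume.restrict (I n)) :=
    (hf.mono_measure (restr_le n)).smul_measure (smul_ne n)
  exact (h1.comp_measurePreserving (mp n)).const_mul (a n)
/-- the affine map as an equivalence -/
def E (n : ℕ) : ℝ ≃ᵐ ℝ where
  toFun := e n
  invFun := g n
  left_inv := ge n
  right_inv := eg n
  measurable_toFun := e_meas n
  measurable_invFun := g_meas n
theorem emb (n : ℕ) : MeasurableEmbedding (e n) := (E n).measurableEmbedding
theorem normR (n : ℕ) (f : ℝ → ℝ) (hf : MemLp f 1 μ) :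
    ∫ t, |a n * f (e n t)| ∂μ = ∫ s in I n, |f s| ∂μ := by
  have hE : MeasurableEmbedding (e n) := emb n
  have h1 : ∫ t, |f (e n t)| ∂μ = ∫ s, |f s| ∂(ENNReal.ofReal (a n)⁻¹ • volume.restrict (I n)) :=
    (mp n).integral_comp hE (fun s => |f s|)
  have h2 : μ.restrict (I n) = volume.restrict (I n) := by
    rw [mu_eq, Measure.restrict_restrict (I_meas n), inter_eq_self_of_subset_left (I_sub n)]
  rw [h2]
  simp only [abs_mul, abs_of_pos (a_pos n)]
  rw [integral_const_mul, h1, integral_smul_measure, ENNReal.toReal_ofReal (inv_nonneg.2 (a_pos n).le),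
    smul_eq_mul, ← mul_assoc, mul_inv_cancel₀ (a_pos n).ne', one_mul]
/-- the operator `R_n` -/
def R (n : ℕ) (f : U) : U := (memR n f (Lp.memLp f)).toLp
theorem R_coe (n : ℕ) (f : U) : R n f =ᵐ[μ] fun t => a n * f (e n t) := MemLp.coeFn_toLp _
theorem R_add (n : ℕ) (f h : U) : R n (f + h) = R n f + R n h := by
  refine Lp.ext ?_
  have h1 := (qmp n).ae (Lp.coeFn_add f h)
  filter_upwards [R_coe n (f + h), R_coe n f, R_coe n h, Lp.coeFn_add (R n f) (R n h), h1] with t k1 k2 k3 k4 k5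
  rw [k1, k4, Pi.add_apply, k2, k3, k5, Pi.add_apply]
  ring
theorem R_smul (n : ℕ) (c : ℝ) (f : U) : R n (c • f) = c • R n f := by
  refine Lp.ext ?_
  have h1 := (qmp n).ae (Lp.coeFn_smul c f)
  filter_upwards [R_coe n (c • f), R_coe n f, Lp.coeFn_smul c (R n f), h1] with t k1 k2 k4 k5
  rw [k1, k4, Pi.smul_apply, k2, k5, Pi.smul_apply, smul_eq_mul, smul_eq_mul]
  ring
theorem norm_eq (f : U) : ‖f‖ = ∫ t, |f t| ∂μ := by
  rw [L1.norm_eq_integral_norm]
  rfl
theorem normR' (n : ℕ) (f : U) : ‖R n f‖ = ∫ s in I n, |f s| ∂μ := by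
  rw [norm_eq, ← normR n f (Lp.memLp f)]
  refine integral_congr_ae ?_
  filter_upwards [R_coe n f] with t ht
  rw [ht]
theorem hasSum_norm (f : U) : HasSum (fun n => ‖R n f‖) ‖f‖ := by
  have h1 : Integrable (fun s => |f s|) μ := (L1.integrable_coeFn f).abs
  have h2 := hasSum_integral_iUnion (μ := μ) I_meas I_disj h1.integrableOn
  have h3 : ∫ s in ⋃ n, I n, |f s| ∂μ = ‖f‖ := by
    rw [iUnion_I, norm_eq, mu_eq, Measure.restrict_restrict measurableSet_Ioc, inter_self]
  rw [h3] at h2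
  simpa only [normR'] using h2
theorem R_le (n : ℕ) (f : U) : ‖R n f‖ ≤ ‖f‖ :=
  le_hasSum (hasSum_norm f) n fun _ _ => norm_nonneg _
/-- `R_n` as a bounded operator -/
def Rc (n : ℕ) : U →L[ℝ] U :=
  LinearMap.mkContinuous { toFun := R n, map_add' := R_add n, map_smul' := R_smul n } 1 fun f => by
    rw [one_mul]
    exact R_le n f
theorem Rc_apply (n : ℕ) (f : U) : Rc n f = R n f := rfl
theorem memS (n : ℕ) (w : ℝ → ℝ) (hw : MemLp w 1 μ) :
    MemLp ((I n).indicator fun s => (a n)⁻¹ * w (g n s)) 1 μ := by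
  rw [memLp_one_iff_integrable]
  have h1 : Integrable (fun s => w (g n s)) (ENNReal.ofReal (a n)⁻¹ • volume.restrict (I n)) := by
    rw [← (mp n).integrable_comp_emb (emb n)]
    refine (memLp_one_iff_integrable.1 hw).congr (Filter.Eventually.of_forall fun t => ?_)
    simp only [Function.comp, ge]
  have h2 : Integrable (fun s => w (g n s)) (volume.restrict (I n)) := by
    rwa [integrable_smul_measure (by simpa using a_pos n) (smul_ne n)] at h1
  have h3 : μ.restrict (I n) = volume.restrict (I n) := by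
    rw [mu_eq, Measure.restrict_restrict (I_meas n), inter_eq_self_of_subset_left (I_sub n)]
  rw [integrable_indicator_iff (I_meas n)]
  unfold IntegrableOn
  rw [h3]
  exact h2.const_mul _
/-- the operator `S_n` -/
def S (n : ℕ) (w : U) : U := (memS n w (Lp.memLp w)).toLp
theorem S_coe (n : ℕ) (w : U) : S n w =ᵐ[μ] (I n).indicator fun s => (a n)⁻¹ * w (g n s) :=
  MemLp.coeFn_toLp _
theorem R_S (m n : ℕ) (w : U) : R m (S n w) = if m = n then w else 0 := by
  have h1 := (qmp m).ae (S_coe n w)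
  have h0 : ∀ᵐ t ∂μ, t ∈ Ioc (0 : ℝ) 1 := by
    rw [mu_eq]
    exact ae_restrict_mem measurableSet_Ioc
  by_cases hmn : m = n
  · subst hmn
    rw [if_pos rfl]
    refine Lp.ext ?_
    filter_upwards [R_coe m (S m w), h1, h0] with t k1 k2 k3
    rw [k1, k2, indicator_of_mem (e_self m t k3), ge, ← mul_assoc, mul_inv_cancel₀ (a_pos m).ne', one_mul]
  · rw [if_neg hmn]
    refine Lp.ext ?_
    filter_upwards [R_coe m (S n w), h1, h0, Lp.coeFn_zero ℝ 1 μ] with t k1 k2 k3 k4
    rw [k1, k2, indicator_of_notMem fun h => hmn ((e_mem m n t k3).1 h), mul_zero]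
    exact k4.symm
theorem norm_S (n : ℕ) (w : U) : ‖S n w‖ = ‖w‖ := by
  have h1 := hasSum_norm (S n w)
  have h2 : (fun m => ‖R m (S n w)‖) = fun m => if m = n then ‖w‖ else 0 := by
    ext m
    rw [R_S]
    split_ifs <;> simp
  rw [h2] at h1
  exact h1.unique (hasSum_ite_eq n ‖w‖)
theorem mem_phi (f : U) : Memℓp (fun n => R n f : ∀ _ : ℕ, U) 1 := by
  refine memℓp_gen ?_
  simpa using (hasSum_norm f).summable
/-- the isometry -/
def Phi : U →ₗᵢ[ℝ] L1 U where
  toFun f := ⟨fun n => R n f, mem_phi f⟩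
  map_add' f h := by
    ext1
    funext n
    exact R_add n f h
  map_smul' c f := by
    ext1
    funext n
    exact R_smul n c f
  norm_map' f := by
    change ‖(⟨fun n => R n f, mem_phi f⟩ : L1 U)‖ = ‖f‖
    rw [lp.norm_eq_tsum_rpow (by simp)]
    simp only [ENNReal.toReal_one, Real.rpow_one, div_one]
    exact (hasSum_norm f).tsum_eq
theorem surj : Function.Surjective Phi := by
  intro w
  have h1 : Summable fun n => ‖w n‖ := by
    have := (lp.memℓp w).summable (by simp)
    simpa using this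
  have h2 : Summable fun n => S n (w n) := by
    refine Summable.of_norm ?_
    simpa only [norm_S] using h1
  refine ⟨∑' n, S n (w n), ?_⟩
  ext1
  funext m
  change R m (∑' n, S n (w n)) = w m
  rw [← Rc_apply, (Rc m).map_tsum h2]
  simp only [Rc_apply, R_S]
  have h3 : ∀ n, (if m = n then w n else 0) = if n = m then w m else 0 := by
    intro n
    by_cases h : m = n
    · subst h; simp
    · rw [if_neg h, if_neg (Ne.symm h)]
  rw [tsum_congr h3, tsum_ite_eq]
theorem t : S_UU :=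
  ⟨(LinearIsometryEquiv.ofSurjective Phi surj).symm.toContinuousLinearEquiv⟩
end
end Pool.Agent.H32DG.UU14
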