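import Mathlib
import Pool.Agent.H32DG.Stm

set_option autoImplicit false

open MeasureTheory Set
open scoped ENNReal

namespace Pool.Agent.H32DG.UU2

/-- extension by zero -/
noncomputable def E (f : ℝ → ℝ) : ℝ → ℝ := (Icc (0 : ℝ) 1).indicator f

lemma E_int (f : U) : Integrable (E f) := by
  have h : Integrable (f : ℝ → ℝ) (volume.restrict (Icc (0 : ℝ) 1)) := L1.integrable_coeFn f
  exact (integrable_indicator_iff measurableSet_Icc).2 h

lemma norm_E (f : U) : ‖f‖ = ∫ x, ‖E f x‖ := by
  rw [L1.norm_eq_integral_norm, ← integral_indicator measurableSet_Icc]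
  congr 1
  ext x
  simp only [E, indicator]
  split_ifs <;> simp

lemma ae_E {f g : ℝ → ℝ} (h : f =ᵐ[volume.restrict (Icc (0 : ℝ) 1)] g) : ∀ᵐ x : ℝ, E f x = E g x := by
  have h' := (ae_restrict_iff' measurableSet_Icc).1 h
  filter_upwards [h'] with x hx
  by_cases hm : x ∈ Icc (0 : ℝ) 1
  · simp [E, hm, hx hm]
  · simp [E, hm]

lemma ae_aff {P : ℝ → Prop} (r d : ℝ) (hr : r ≠ 0) (h : ∀ᵐ x : ℝ, P x) : ∀ᵐ t : ℝ, P (r * t + d) := by
  rw [ae_iff] at h ⊢
  have e : {t : ℝ | ¬ P (r * t + d)} = (fun t => r * t) ⁻¹' ((fun t => t + d) ⁻¹' {x | ¬ P x}) := rfl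
  rw [e, Real.volume_preimage_mul_left hr, measure_preimage_add_right, h, mul_zero]

/-- the affine operator on functions -/
noncomputable def A (r d : ℝ) (f : ℝ → ℝ) : ℝ → ℝ := fun t => r * E f (r * t + d)

lemma A_int (r d : ℝ) (hr : r ≠ 0) (f : U) : Integrable (A r d f) := by
  have h1 := (E_int f).comp_add_right d
  have h2 := h1.comp_mul_left' hr
  exact h2.const_mul r

lemma A_ae (r d : ℝ) (hr : r ≠ 0) {f g : ℝ → ℝ} (h : f =ᵐ[volume.restrict (Icc (0 : ℝ) 1)] g) :
    ∀ᵐ t : ℝ, A r d f t = A r d g t := by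
  filter_upwards [ae_aff r d hr (ae_E h)] with t ht
  simp only [A]
  rw [ht]

lemma A_norm (r d : ℝ) (hr : 0 < r) (f : U) :
    ∫ t in Icc (0 : ℝ) 1, ‖A r d f t‖ = ∫ x in d..(r + d), ‖E f x‖ := by
  rw [integral_Icc_eq_integral_Ioc, ← intervalIntegral.integral_of_le zero_le_one]
  have h := intervalIntegral.smul_integral_comp_mul_add (a := 0) (b := 1) (fun x => ‖E f x‖) r d
  simp only [mul_zero, zero_add, mul_one, smul_eq_mul] at h
  rw [← h, ← intervalIntegral.integral_const_mul]
  congr 1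
  ext t
  simp only [A, norm_mul, Real.norm_of_nonneg hr.le]

/-- the affine operator -/
noncomputable def Phi (r d : ℝ) (hr : 0 < r) : U →L[ℝ] U :=
  LinearMap.mkContinuous
    { toFun := fun f => ((A_int r d hr.ne' f).restrict (s := Icc (0 : ℝ) 1)).toL1 (A r d f)
      map_add' := by
        intro f g
        rw [← Integrable.toL1_add, Integrable.toL1_eq_toL1_iff]
        apply ae_restrict_of_ae
        filter_upwards [A_ae r d hr.ne' (Lp.coeFn_add f g)] with t ht
        rw [ht]
        simp only [A, E, Pi.add_apply, indicator_add']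
        simp only [mul_add]
      map_smul' := by
        intro c f
        rw [RingHom.id_apply, ← Integrable.toL1_smul, Integrable.toL1_eq_toL1_iff]
        apply ae_restrict_of_ae
        filter_upwards [A_ae r d hr.ne' (Lp.coeFn_smul c f)] with t ht
        rw [ht]
        simp only [A, E, indicator, Pi.smul_apply, smul_eq_mul]
        split_ifs <;> ring }
    1 (by
      intro f
      rw [one_mul]
      change ‖((A_int r d hr.ne' f).restrict (s := Icc (0 : ℝ) 1)).toL1 (A r d f)‖ ≤ _
      rw [L1.norm_of_fun_eq_integral_norm, A_norm r d hr, norm_E f,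
        intervalIntegral.integral_of_le (by linarith)]
      exact setIntegral_le_integral (E_int f).norm (Filter.Eventually.of_forall fun x => norm_nonneg _))

lemma Phi_ae (r d : ℝ) (hr : 0 < r) (f : U) :
    (Phi r d hr f : ℝ → ℝ) =ᵐ[volume.restrict (Icc (0 : ℝ) 1)] A r d f :=
  Integrable.coeFn_toL1 ((A_int r d hr.ne' f).restrict (s := Icc (0 : ℝ) 1))

lemma Phi_norm (r d : ℝ) (hr : 0 < r) (f : U) : ‖Phi r d hr f‖ = ∫ x in d..(r + d), ‖E f x‖ := by
  change ‖((A_int r d hr.ne' f).restrict (s := Icc (0 : ℝ) 1)).toL1 (A r d f)‖ = _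
  rw [L1.norm_of_fun_eq_integral_norm, A_norm r d hr]

lemma Phi_le (r d : ℝ) (hr : 0 < r) (f : U) : ‖Phi r d hr f‖ ≤ ‖f‖ := by
  rw [Phi_norm, norm_E f, intervalIntegral.integral_of_le (by linarith)]
  exact setIntegral_le_integral (E_int f).norm (Filter.Eventually.of_forall fun x => norm_nonneg _)

noncomputable def c (n : ℕ) : ℝ := (1 / 2) ^ (n + 1)
noncomputable def p (n : ℕ) : ℝ := 1 - (1 / 2) ^ n

lemma c_pos (n : ℕ) : 0 < c n := by unfold c; positivity
lemma c_p (n : ℕ) : c n + p n = p (n + 1) := by unfold c p; rw [pow_succ]; ring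
lemma p_mono : Monotone p := monotone_nat_of_le_succ fun n => by rw [← c_p]; linarith [c_pos n]
lemma p_zero : p 0 = 0 := by simp [p]

noncomputable def R (n : ℕ) : U →L[ℝ] U := Phi (c n) (p n) (c_pos n)
noncomputable def S (n : ℕ) : U →L[ℝ] U := Phi (c n)⁻¹ (-(p n * (c n)⁻¹)) (inv_pos.2 (c_pos n))

lemma sum_R (f : U) (N : ℕ) : ∑ n ∈ Finset.range N, ‖R n f‖ = ∫ x in (0 : ℝ)..(p N), ‖E f x‖ := by
  have h : ∀ n, ‖R n f‖ = ∫ x in (p n)..(p (n + 1)), ‖E f x‖ := by
    intro n
    rw [R, Phi_norm, c_p]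
  rw [Finset.sum_congr rfl fun n _ => h n]
  have := intervalIntegral.sum_integral_adjacent_intervals (f := fun x => ‖E f x‖) (μ := volume) (a := p) (n := N)
    (fun k _ => (E_int f).norm.intervalIntegrable)
  rw [this, p_zero]

lemma sum_R_le (f : U) (N : ℕ) : ∑ n ∈ Finset.range N, ‖R n f‖ ≤ ‖f‖ := by
  rw [sum_R, norm_E f, intervalIntegral.integral_of_le (by rw [← p_zero]; exact p_mono (Nat.zero_le N))]
  exact setIntegral_le_integral (E_int f).norm (Filter.Eventually.of_forall fun x => norm_nonneg _)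

lemma R_S (n m : ℕ) (f : U) : R n (S m f) = if n = m then f else 0 := by
  have h1 := Phi_ae (c n) (p n) (c_pos n) (S m f)
  have h2 := A_ae (c n) (p n) (c_pos n).ne' (Phi_ae (c m)⁻¹ (-(p m * (c m)⁻¹)) (inv_pos.2 (c_pos m)) f)
  have h2' := ae_restrict_of_ae (s := Icc (0 : ℝ) 1) h2
  have h3 : ∀ᵐ t ∂(volume.restrict (Icc (0 : ℝ) 1)), t ∈ Icc (0 : ℝ) 1 := ae_restrict_mem measurableSet_Icc
  have h4 : ∀ᵐ t : ℝ, t ≠ 0 := by
    rw [ae_iff]; simp
  have h5 : ∀ᵐ t : ℝ, t ≠ 1 := by
    rw [ae_iff]; simp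
  have h4' := ae_restrict_of_ae (s := Icc (0 : ℝ) 1) h4
  have h5' := ae_restrict_of_ae (s := Icc (0 : ℝ) 1) h5
  apply Lp.ext
  have key : ∀ t : ℝ, t ∈ Icc (0 : ℝ) 1 → t ≠ 0 → t ≠ 1 →
      A (c n) (p n) (A (c m)⁻¹ (-(p m * (c m)⁻¹)) f) t = if n = m then f t else 0 := by
    intro t ht ht0 ht1
    have t0 : 0 < t := lt_of_le_of_ne ht.1 (Ne.symm ht0)
    have t1 : t < 1 := lt_of_le_of_ne ht.2 ht1
    have hin : c n * t + p n ∈ Icc (0 : ℝ) 1 := by
      have hp0 : 0 ≤ p n := by rw [← p_zero]; exact p_mono (Nat.zero_le n)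
      have hp1 : p (n + 1) ≤ 1 := by unfold p; simp
      constructor
      · have := mul_pos (c_pos n) t0; linarith
      · have : c n * t ≤ c n := by nlinarith [c_pos n]
        rw [← c_p] at hp1; linarith
    have hcm := c_pos m
    have e0 : A (c n) (p n) (A (c m)⁻¹ (-(p m * (c m)⁻¹)) f) t
        = c n * ((c m)⁻¹ * E f ((c m)⁻¹ * (c n * t + p n) + -(p m * (c m)⁻¹))) := by
      simp only [A]
      congr 1
      simp only [E]
      rw [indicator_of_mem hin]
      rfl
    rw [e0]
    have e1 : (c m)⁻¹ * (c n * t + p n) + -(p m * (c m)⁻¹) = (c n * t + p n - p m) / c m := by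
      rw [div_eq_mul_inv]; ring
    rw [e1]
    split_ifs with hnm
    · subst hnm
      have : (c n * t + p n - p n) / c n = t := by field_simp; ring
      rw [this, ← mul_assoc, mul_inv_cancel₀ hcm.ne', one_mul]
      simp only [E]
      rw [indicator_of_mem ht]
    · have hout : (c n * t + p n - p m) / c m ∉ Icc (0 : ℝ) 1 := by
        rintro ⟨g1, g2⟩
        rw [div_le_one hcm] at g2
        rw [le_div_iff₀ hcm, zero_mul] at g1
        rcases lt_or_gt_of_ne hnm with h | h
        · have : p (n + 1) ≤ p m := p_mono h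
          rw [← c_p] at this
          nlinarith [c_pos n]
        · have : p (m + 1) ≤ p n := p_mono h
          rw [← c_p] at this
          nlinarith [mul_pos (c_pos n) t0]
      simp only [E]
      rw [indicator_of_notMem hout]; simp
  have hz : (if n = m then f else 0 : U) =ᵐ[volume.restrict (Icc (0 : ℝ) 1)] fun t => if n = m then f t else 0 := by
    split_ifs
    · rfl
    · exact Lp.coeFn_zero _ _ _
  filter_upwards [h1, h2', h3, h4', h5', hz] with t g1 g2 g3 g4 g5 g6
  rw [g6, ← key t g3 g4 g5, ← g2]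
  exact g1

lemma R_inj (f : U) (h : ∀ n, R n f = 0) : f = 0 := by
  have h1 : ∀ N, ∫ x in (0 : ℝ)..(p N), ‖E f x‖ = 0 := by
    intro N
    rw [← sum_R]
    apply Finset.sum_eq_zero
    intro n _
    rw [h n, norm_zero]
  have h2 : Filter.Tendsto p Filter.atTop (nhds 1) := by
    have := (tendsto_pow_atTop_nhds_zero_of_lt_one (r := (1 / 2 : ℝ)) (by norm_num) (by norm_num)).const_sub 1
    rw [sub_zero] at this
    exact this
  have h3 : Continuous fun b : ℝ => ∫ x in (0 : ℝ)..b, ‖E f x‖ :=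
    intervalIntegral.continuous_primitive (fun a b => (E_int f).norm.intervalIntegrable) 0
  have h4 := (h3.tendsto 1).comp h2
  have h5 : ∫ x in (0 : ℝ)..1, ‖E f x‖ = 0 := by
    refine tendsto_nhds_unique h4 ?_
    have : ((fun b : ℝ => ∫ x in (0 : ℝ)..b, ‖E f x‖) ∘ p) = fun _ => 0 := by
      ext N; exact h1 N
    rw [this]; exact tendsto_const_nhds
  have h6 : ‖f‖ = 0 := by
    have e : (∫ x in (0 : ℝ)..1, ‖E f x‖) = ∫ x, ‖E f x‖ := by
      rw [intervalIntegral.integral_of_le zero_le_one, ← integral_Icc_eq_integral_Ioc]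
      refine setIntegral_eq_integral_of_forall_compl_eq_zero ?_
      intro x hx
      simp [E, hx]
    rw [norm_E f, ← e, h5]
  exact norm_eq_zero.1 h6

/-- the coordinates -/
lemma R_mem (f : U) : Memℓp (fun n => R n f : ∀ _ : ℕ, U) 1 := by
  apply memℓp_gen
  simp only [ENNReal.toReal_one, Real.rpow_one]
  exact summable_of_sum_range_le (fun n => norm_nonneg _) (sum_R_le f)

lemma norm_L1 (w : L1 U) : ‖w‖ = ∑' n, ‖w n‖ := by
  rw [lp.norm_eq_tsum_rpow (by simp)]
  simp

lemma summ_L1 (w : L1 U) : Summable fun n => ‖w n‖ := by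
  have := (lp.hasSum_norm (p := 1) (by simp) w).summable
  simpa using this

noncomputable def RR : U →L[ℝ] L1 U :=
  LinearMap.mkContinuous
    { toFun := fun f => ⟨fun n => R n f, R_mem f⟩
      map_add' := by
        intro f g
        ext1
        funext n
        exact (R n).map_add f g
      map_smul' := by
        intro a f
        ext1
        funext n
        exact (R n).map_smul a f }
    1 (by
      intro f
      rw [one_mul, norm_L1]
      exact Real.tsum_le_of_sum_range_le (fun n => norm_nonneg _) (sum_R_le f))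

lemma S_norm_le (n : ℕ) (f : U) : ‖S n f‖ ≤ ‖f‖ := Phi_le _ _ _ f

lemma S_summ (w : L1 U) : Summable fun n => S n (w n) :=
  Summable.of_norm_bounded (summ_L1 w) fun n => S_norm_le n (w n)

noncomputable def SS : L1 U →L[ℝ] U :=
  LinearMap.mkContinuous
    { toFun := fun w => ∑' n, S n (w n)
      map_add' := by
        intro w w'
        rw [← (S_summ w).tsum_add (S_summ w')]
        congr 1
        funext n
        exact (S n).map_add (w n) (w' n)
      map_smul' := by
        intro a w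
        rw [RingHom.id_apply, ← (S_summ w).tsum_const_smul a]
        congr 1
        funext n
        exact (S n).map_smul a (w n) }
    1 (by
      intro w
      rw [one_mul, norm_L1]
      exact tsum_of_norm_bounded (summ_L1 w).hasSum fun n => S_norm_le n (w n))

lemma RR_SS (w : L1 U) : RR (SS w) = w := by
  ext1
  funext n
  change R n (∑' m, S m (w m)) = w n
  rw [(R n).map_tsum (S_summ w), tsum_eq_single n]
  · rw [R_S, if_pos rfl]
  · intro m hm
    rw [R_S, if_neg (Ne.symm hm)]

lemma RR_inj (f : U) (h : RR f = 0) : f = 0 := by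
  apply R_inj
  intro n
  have := congrArg (fun w : L1 U => w n) h
  exact this

lemma SS_RR (f : U) : SS (RR f) = f := by
  have h : RR (SS (RR f) - f) = 0 := by rw [map_sub, RR_SS, sub_self]
  exact sub_eq_zero.1 (RR_inj _ h)

theorem t : S_UU := by
  exact ⟨ContinuousLinearEquiv.equivOfInverse SS RR RR_SS SS_RR⟩

end Pool.Agent.H32DG.UU2
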