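import Pool.Agent.H32DG.Stm

/-! Project H32DG: the abstract half of UU. -/

set_option autoImplicit false

open scoped ENNReal

namespace Pool.Agent.H32DG.UUA

open Pool.Agent.H32DG

theorem abs {V : Type} [NormedAddCommGroup V] [NormedSpace ℝ V] [CompleteSpace V] (R S : ℕ → V →L[ℝ] V)
    (hS : ∀ n w, ‖S n w‖ ≤ ‖w‖) (hRS : ∀ n m w, R n (S m w) = if n = m then w else 0)
    (hR : ∀ f, Summable (fun n => ‖R n f‖)) (hR1 : ∀ f, ∑' n, ‖R n f‖ ≤ ‖f‖)
    (hsum : ∀ f, HasSum (fun n => S n (R n f)) f) : Nonempty (L1 V ≃L[ℝ] V) := by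
  have hnorm : ∀ w : L1 V, ‖w‖ = ∑' n, ‖w n‖ := by
    intro w
    have := lp.norm_eq_tsum_rpow (p := (1 : ℝ≥0∞)) (by norm_num) w
    simpa using this
  have hsw : ∀ w : L1 V, Summable fun n => ‖w n‖ := by
    intro w
    have := (lp.memℓp w).summable (by norm_num)
    simpa using this
  have hSs : ∀ w : L1 V, Summable fun n => S n (w n) := fun w =>
    Summable.of_norm_bounded (hsw w) fun n => hS n (w n)
  have hmem : ∀ f : V, Memℓp (fun n => R n f) 1 := by
    intro f
    refine memℓp_gen ?_
    simpa using hR f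
  let B : V →ₗ[ℝ] L1 V :=
    { toFun := fun f => ⟨fun n => R n f, hmem f⟩
      map_add' := fun f g => by
        ext n
        show R n (f + g) = R n f + R n g
        rw [map_add]
      map_smul' := fun c f => by
        ext n
        show R n (c • f) = c • R n f
        rw [map_smul] }
  let A : L1 V →ₗ[ℝ] V :=
    { toFun := fun w => ∑' n, S n (w n)
      map_add' := fun w z => by
        rw [← (hSs w).tsum_add (hSs z)]
        refine tsum_congr fun n => ?_
        show S n (w n + z n) = _
        rw [map_add]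
      map_smul' := fun c w => by
        rw [RingHom.id_apply, ← (hSs w).tsum_const_smul]
        refine tsum_congr fun n => ?_
        show S n (c • w n) = _
        rw [map_smul] }
  have hB : ∀ f, ‖B f‖ ≤ 1 * ‖f‖ := by
    intro f
    rw [hnorm, one_mul]
    exact hR1 f
  have hA : ∀ w, ‖A w‖ ≤ 1 * ‖w‖ := by
    intro w
    rw [hnorm, one_mul]
    exact tsum_of_norm_bounded (hsw w).hasSum fun n => hS n (w n)
  have hAB : ∀ f, A (B f) = f := fun f => (hsum f).tsum_eq
  have hBA : ∀ w, B (A w) = w := by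
    intro w
    ext n
    show R n (∑' m, S m (w m)) = w n
    rw [(R n).map_tsum (hSs w)]
    simp only [hRS]
    rw [tsum_eq_single n (fun m hm => by rw [if_neg (Ne.symm hm)]), if_pos rfl]
  exact ⟨ContinuousLinearEquiv.equivOfInverse (A.mkContinuous 1 hA) (B.mkContinuous 1 hB) hBA hAB⟩

end Pool.Agent.H32DG.UUA
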