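import Pool.Agent.H32DG.Stm

/-! Project H32DG: UU by helper33 (`ℓ₁(L₁[0,1]) ≅ L₁[0,1]`). -/

set_option autoImplicit false

open MeasureTheory Set Filter Topology
open scoped ENNReal

namespace Pool.Agent.H32DG.UUB

open Pool.Agent.H32DG

theorem abs {V : Type} [NormedAddCommGroup V] [NormedSpace ℝ V] [CompleteSpace V] (R : ℕ → V →L[ℝ] V)
    (hR : ∀ f, HasSum (fun n => ‖R n f‖) ‖f‖)
    (hs : ∀ m w, ∃ f, ∀ n, R n f = if n = m then w else 0) : Nonempty (L1 V ≃L[ℝ] V) := by
  have hnorm : ∀ w : L1 V, ‖w‖ = ∑' n, ‖w n‖ := by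
    intro w
    have := lp.norm_eq_tsum_rpow (p := (1 : ℝ≥0∞)) (by norm_num) w
    simpa using this
  have hsw : ∀ w : L1 V, Summable fun n => ‖w n‖ := by
    intro w
    have := (lp.memℓp w).summable (by norm_num)
    simpa using this
  have hmem : ∀ f : V, Memℓp (fun n => R n f) 1 := by
    intro f
    refine memℓp_gen ?_
    simpa using (hR f).summable
  choose S hS using hs
  have hSn : ∀ m w, ‖S m w‖ = ‖w‖ := by
    intro m w
    have h1 := hR (S m w)
    simp only [hS] at h1
    have h2 : HasSum (fun n => ‖if n = m then w else 0‖) ‖w‖ := by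
      have e : (fun n => ‖if n = m then w else 0‖) = fun n => if n = m then ‖w‖ else 0 := by
        funext n
        split_ifs
        · rfl
        · exact norm_zero
      rw [e]
      exact hasSum_ite_eq m ‖w‖
    exact h1.unique h2
  let B : V →ₗᵢ[ℝ] L1 V :=
    { toFun := fun f => ⟨fun n => R n f, hmem f⟩
      map_add' := fun f g => by
        ext n
        show R n (f + g) = R n f + R n g
        rw [map_add]
      map_smul' := fun c f => by
        ext n
        show R n (c • f) = c • R n f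
        rw [map_smul]
      norm_map' := fun f => by
        rw [hnorm]
        exact (hR f).tsum_eq }
  have hsurj : Function.Surjective B := by
    intro w
    have h1 : Summable fun m => S m (w m) := Summable.of_norm (by
      simp only [hSn]
      exact hsw w)
    refine ⟨∑' m, S m (w m), ?_⟩
    ext n
    show R n (∑' m, S m (w m)) = w n
    rw [(R n).map_tsum h1]
    simp only [hS]
    rw [tsum_eq_single n (fun m hm => by rw [if_neg (Ne.symm hm)]), if_pos rfl]
  exact ⟨(LinearIsometryEquiv.ofSurjective B hsurj).toContinuousLinearEquiv.symm⟩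

noncomputable def q (n : ℕ) : ℝ := (1 / 2) ^ (n + 1)
noncomputable def b (n : ℕ) : ℝ := 1 - (1 / 2) ^ n

theorem q_pos (n : ℕ) : 0 < q n := by unfold q; positivity

theorem b_succ (n : ℕ) : b (n + 1) = q n * 1 + b n := by
  unfold q b
  rw [pow_succ]
  ring

theorem b_nonneg (n : ℕ) : 0 ≤ b n := by
  unfold b
  have : (1 / 2 : ℝ) ^ n ≤ 1 := pow_le_one₀ (by norm_num) (by norm_num)
  linarith

theorem b_lt (n : ℕ) : b n < 1 := by
  unfold b
  have : 0 < (1 / 2 : ℝ) ^ n := by positivity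
  linarith

theorem b_mono {n m : ℕ} (h : n ≤ m) : b n ≤ b m := by
  unfold b
  have : (1 / 2 : ℝ) ^ m ≤ (1 / 2) ^ n := pow_le_pow_of_le_one (by norm_num) (by norm_num) h
  linarith

theorem b_tendsto : Tendsto b atTop (𝓝 1) := by
  unfold b
  have h := tendsto_pow_atTop_nhds_zero_of_lt_one (by norm_num : (0 : ℝ) ≤ 1 / 2) (by norm_num)
  simpa using h.const_sub 1

theorem maps (n : ℕ) {t : ℝ} (h : t ∈ Icc (0 : ℝ) 1) : q n * t + b n ∈ Icc (0 : ℝ) 1 := by
  have h1 := q_pos n
  have h2 := b_nonneg n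
  have h3 := b_succ n
  have h4 := (b_lt (n + 1)).le
  constructor
  · have := mul_nonneg h1.le h.1
    linarith
  · have := mul_le_mul_of_nonneg_left h.2 h1.le
    linarith

theorem img (n : ℕ) : (fun t => q n * t + b n) '' Icc (0 : ℝ) 1 = Icc (b n) (b (n + 1)) := by
  rw [Set.image_affine_Icc' (q_pos n), b_succ, mul_zero, zero_add]

theorem der (n : ℕ) : ∀ t ∈ Icc (0 : ℝ) 1, HasDerivWithinAt (fun t => q n * t + b n) (q n) (Icc 0 1) t := by
  intro t _
  have h := ((hasDerivAt_id t).const_mul (q n)).add_const (b n)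
  simpa using h.hasDerivWithinAt

theorem inj (n : ℕ) : InjOn (fun t => q n * t + b n) (Icc (0 : ℝ) 1) := by
  intro s _ t _ h
  have h1 := q_pos n
  simp only at h
  have h2 : q n * s = q n * t := by linarith
  exact mul_left_cancel₀ h1.ne' h2

theorem cov_int (n : ℕ) (g : ℝ → ℝ) : IntegrableOn g (Icc (b n) (b (n + 1))) ↔
    IntegrableOn (fun t => q n * g (q n * t + b n)) (Icc 0 1) := by
  rw [← img, integrableOn_image_iff_integrableOn_abs_deriv_smul measurableSet_Icc (der n) (inj n)]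
  simp only [abs_of_pos (q_pos n), smul_eq_mul]

theorem cov (n : ℕ) (g : ℝ → ℝ) : ∫ x in Icc (b n) (b (n + 1)), g x =
    ∫ t in Icc (0 : ℝ) 1, q n * g (q n * t + b n) := by
  rw [← img, integral_image_eq_integral_abs_deriv_smul measurableSet_Icc (der n) (inj n)]
  simp only [abs_of_pos (q_pos n), smul_eq_mul]

theorem sub (n : ℕ) : Icc (b n) (b (n + 1)) ⊆ Icc (0 : ℝ) 1 := Icc_subset_Icc (b_nonneg n) (b_lt _).le

/-- the measure -/
noncomputable abbrev mu : Measure ℝ := volume.restrict (Icc (0 : ℝ) 1)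

theorem int_R (n : ℕ) {f : ℝ → ℝ} (hf : Integrable f mu) : Integrable (fun t => q n * f (q n * t + b n)) mu :=
  (cov_int n f).1 (IntegrableOn.mono_set hf (sub n))

theorem ae_a (n : ℕ) {P : ℝ → Prop} (h : ∀ᵐ s ∂mu, P s) : ∀ᵐ t ∂mu, P (q n * t + b n) := by
  rw [ae_restrict_iff' measurableSet_Icc] at h ⊢
  have h1 : volume ((fun t : ℝ => q n * t + b n) ⁻¹' {s | ¬(s ∈ Icc (0 : ℝ) 1 → P s)}) = 0 := by
    have h2 : (fun t : ℝ => q n * t + b n) ⁻¹' {s | ¬(s ∈ Icc (0 : ℝ) 1 → P s)} =
      (fun t : ℝ => q n * t) ⁻¹' ((fun t : ℝ => t + b n) ⁻¹' {s | ¬(s ∈ Icc (0 : ℝ) 1 → P s)}) := rfl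
    rw [h2, Real.volume_preimage_mul_left (q_pos n).ne', measure_preimage_add_right]
    have h3 : volume {s | ¬(s ∈ Icc (0 : ℝ) 1 → P s)} = 0 := h
    rw [h3, mul_zero]
  have h4 : ∀ᵐ t : ℝ, q n * t + b n ∈ Icc (0 : ℝ) 1 → P (q n * t + b n) := h1
  filter_upwards [h4] with t ht h5
  exact ht (maps n h5)

/-- the operators -/
noncomputable def Rl (n : ℕ) : U →ₗ[ℝ] U where
  toFun f := (int_R n (L1.integrable_coeFn f)).toL1 _
  map_add' f g := by
    rw [← Integrable.toL1_add, Integrable.toL1_eq_toL1_iff]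
    filter_upwards [ae_a n (Lp.coeFn_add f g)] with t ht
    rw [ht]
    simp only [Pi.add_apply]
    ring
  map_smul' c f := by
    rw [RingHom.id_apply, ← Integrable.toL1_smul, Integrable.toL1_eq_toL1_iff]
    filter_upwards [ae_a n (Lp.coeFn_smul c f)] with t ht
    rw [ht]
    simp only [Pi.smul_apply, smul_eq_mul]
    ring

theorem norm_Rl (n : ℕ) (f : U) : ‖Rl n f‖ = ∫ x in (b n)..(b (n + 1)), ‖f x‖ := by
  show ‖(int_R n (L1.integrable_coeFn f)).toL1 _‖ = _
  rw [L1.norm_of_fun_eq_integral_norm, intervalIntegral.integral_of_le (b_mono (Nat.le_succ n)),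
    ← integral_Icc_eq_integral_Ioc, cov]
  refine integral_congr_ae (Eventually.of_forall fun t => ?_)
  simp only [norm_mul, Real.norm_eq_abs, abs_of_pos (q_pos n)]

theorem norm_U (f : U) : ‖f‖ = ∫ x in (0 : ℝ)..1, ‖f x‖ := by
  rw [L1.norm_eq_integral_norm, intervalIntegral.integral_of_le zero_le_one, ← integral_Icc_eq_integral_Ioc]

theorem ii (f : U) : IntervalIntegrable (fun x => ‖f x‖) volume 0 1 := by
  rw [intervalIntegrable_iff_integrableOn_Icc_of_le zero_le_one]
  exact (L1.integrable_coeFn f).norm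

theorem hasSum_R (f : U) : HasSum (fun n => ‖Rl n f‖) ‖f‖ := by
  rw [hasSum_iff_tendsto_nat_of_nonneg (fun n => norm_nonneg _)]
  have h1 : ∀ N, ∑ n ∈ Finset.range N, ‖Rl n f‖ = ∫ x in (0 : ℝ)..(b N), ‖f x‖ := by
    intro N
    simp only [norm_Rl]
    have h2 := intervalIntegral.sum_integral_adjacent_intervals (a := b) (n := N) (f := fun x => ‖f x‖)
      (μ := volume) (fun k _ => (ii f).mono_set (by
        rw [uIcc_of_le (b_mono (Nat.le_succ k)), uIcc_of_le zero_le_one]
        exact sub k))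
    rw [h2]
    congr 1
    unfold b
    norm_num
  simp only [h1]
  rw [norm_U]
  have h3 := intervalIntegral.continuousOn_primitive_interval' (ii f) (left_mem_uIcc)
  have h4 := (h3 1 right_mem_uIcc).tendsto
  refine h4.comp (tendsto_nhdsWithin_iff.2 ⟨b_tendsto, Eventually.of_forall fun N => ?_⟩)
  rw [uIcc_of_le zero_le_one]
  exact ⟨b_nonneg N, (b_lt N).le⟩

theorem hs (m : ℕ) (w : U) : ∃ f : U, ∀ n, Rl n f = if n = m then w else 0 := by
  have hq := q_pos m
  set g : ℝ → ℝ := fun s => (q m)⁻¹ * w ((s - b m) / q m) with hg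
  have hgi : IntegrableOn g (Icc (b m) (b (m + 1))) := by
    rw [cov_int]
    have e : (fun t => q m * g (q m * t + b m)) = w := by
      funext t
      rw [hg]
      simp only
      rw [add_sub_cancel_right, mul_div_cancel_left₀ _ hq.ne', ← mul_assoc, mul_inv_cancel₀ hq.ne', one_mul]
    rw [e]
    exact L1.integrable_coeFn w
  set f0 : ℝ → ℝ := (Ico (b m) (b (m + 1))).indicator g with hf0d
  have hf0 : Integrable f0 mu :=
    ((hgi.mono_set Ico_subset_Icc_self).integrable_indicator measurableSet_Ico).restrict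
  refine ⟨hf0.toL1 f0, fun n => ?_⟩
  have h1 : ∀ᵐ t ∂mu, (Rl n (hf0.toL1 f0)) t = q n * f0 (q n * t + b n) := by
    filter_upwards [Integrable.coeFn_toL1 (int_R n (L1.integrable_coeFn (hf0.toL1 f0))),
      ae_a n (Integrable.coeFn_toL1 hf0)] with t h2 h3
    have h4 : (Rl n (hf0.toL1 f0)) t = q n * (hf0.toL1 f0) (q n * t + b n) := h2
    rw [h4, h3]
  have hne : ∀ᵐ t ∂mu, t ≠ 1 := compl_mem_ae_iff.2 (measure_singleton _)
  have hmem : ∀ᵐ t ∂mu, t ∈ Icc (0 : ℝ) 1 := ae_restrict_mem measurableSet_Icc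
  have hin : ∀ᵐ t ∂mu, q n * t + b n ∈ Ico (b n) (b (n + 1)) := by
    filter_upwards [hne, hmem] with t h2 h3
    have h4 : t < 1 := lt_of_le_of_ne h3.2 h2
    have h5 := mul_nonneg (q_pos n).le h3.1
    have h6 := mul_lt_mul_of_pos_left h4 (q_pos n)
    have h7 := b_succ n
    constructor
    · linarith
    · linarith
  by_cases hnm : n = m
  · subst hnm
    rw [if_pos rfl]
    refine Lp.ext ?_
    filter_upwards [h1, hin] with t h2 h3
    rw [h2, hf0d, indicator_of_mem h3, hg]
    simp only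
    rw [add_sub_cancel_right, mul_div_cancel_left₀ _ hq.ne', ← mul_assoc, mul_inv_cancel₀ hq.ne', one_mul]
  · rw [if_neg hnm]
    refine Lp.ext ?_
    filter_upwards [h1, hin, Lp.coeFn_zero ℝ 1 mu] with t h2 h3 h4
    rw [h2, h4, hf0d, indicator_of_notMem, mul_zero, Pi.zero_apply]
    intro h5
    rcases Nat.lt_or_gt_of_ne hnm with h6 | h6
    · have := b_mono (Nat.succ_le_of_lt h6)
      exact absurd h3.2 (not_lt.2 (this.trans h5.1))
    · have := b_mono (Nat.succ_le_of_lt h6)
      exact absurd h5.2 (not_lt.2 (this.trans h3.1))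

theorem t : S_UU := by
  have hb : ∀ n f, ‖Rl n f‖ ≤ 1 * ‖f‖ := by
    intro n f
    rw [one_mul]
    exact le_hasSum (hasSum_R f) n fun j _ => norm_nonneg _
  exact abs (fun n => (Rl n).mkContinuous 1 (hb n)) (fun f => hasSum_R f) (fun m w => hs m w)

end Pool.Agent.H32DG.UUB
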