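import Mathlib
import Pool.Agent.H32DG.Stm

/-!
# Stub UU, abstract part: an isomorphism of the sum of countably many copies of a space with the space
-/

set_option autoImplicit false

open MeasureTheory Filter Topology
open scoped ENNReal

namespace Pool.Agent.H32DG.UUa

open Pool.Agent.H32DG

theorem t (X : Type) [NormedAddCommGroup X] [NormedSpace ℝ X] [CompleteSpace X] (S : ℕ → X →L[ℝ] X)
    (h1 : ∀ (N : ℕ) (x : ℕ → X), ‖∑ n ∈ Finset.range N, S n (x n)‖ = ∑ n ∈ Finset.range N, ‖x n‖)
    (h2 : ∀ (f : X) (ε : ℝ), 0 < ε → ∃ (N : ℕ) (x : ℕ → X), ‖f - ∑ n ∈ Finset.range N, S n (x n)‖ < ε) :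
    Nonempty (L1 X ≃L[ℝ] X) := by
  have hS : ∀ (n : ℕ) (y : X), ‖S n y‖ = ‖y‖ := by
    intro n y
    have h := h1 (n + 1) (Function.update 0 n y)
    rw [Finset.sum_eq_single_of_mem n (Finset.mem_range.mpr (Nat.lt_succ_self n)),
      Finset.sum_eq_single_of_mem n (Finset.mem_range.mpr (Nat.lt_succ_self n)), Function.update_self] at h
    · exact h
    · intro m _ hm
      rw [Function.update_of_ne hm, Pi.zero_apply, norm_zero]
    · intro m _ hm
      rw [Function.update_of_ne hm, Pi.zero_apply, map_zero]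
  have hsum : ∀ w : L1 X, Summable fun n => ‖w n‖ := by
    intro w
    have h := (lp.memℓp w).summable (by simp)
    simpa using h
  have hsumS : ∀ w : L1 X, Summable fun n => S n (w n) := by
    intro w
    apply Summable.of_norm
    exact (hsum w).congr fun n => (hS n (w n)).symm
  have hnorm : ∀ w : L1 X, ‖∑' n, S n (w n)‖ = ‖w‖ := by
    intro w
    have t1 : Tendsto (fun N => ‖∑ n ∈ Finset.range N, S n (w n)‖) atTop (𝓝 ‖∑' n, S n (w n)‖) :=
      (hsumS w).hasSum.tendsto_sum_nat.norm
    have t2 : Tendsto (fun N => ∑ n ∈ Finset.range N, ‖w n‖) atTop (𝓝 (∑' n, ‖w n‖)) :=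
      (hsum w).hasSum.tendsto_sum_nat
    have t3 : (fun N => ‖∑ n ∈ Finset.range N, S n (w n)‖) = fun N => ∑ n ∈ Finset.range N, ‖w n‖ := by
      funext N
      exact h1 N fun n => w n
    rw [t3] at t1
    rw [tendsto_nhds_unique t1 t2, lp.norm_eq_tsum_rpow (by simp) w]
    simp
  let Φ : L1 X →ₗᵢ[ℝ] X :=
    { toFun := fun w => ∑' n, S n (w n)
      map_add' := by
        intro w w'
        rw [← (hsumS w).tsum_add (hsumS w')]
        refine tsum_congr fun n => ?_
        rw [lp.coeFn_add, Pi.add_apply, map_add]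
      map_smul' := by
        intro c w
        rw [RingHom.id_apply, ← (hsumS w).tsum_const_smul c]
        refine tsum_congr fun n => ?_
        rw [lp.coeFn_smul, Pi.smul_apply, map_smul]
      norm_map' := hnorm }
  have hΦ : ∀ w : L1 X, Φ w = ∑' n, S n (w n) := fun w => rfl
  have hΦ1 : ∀ (n : ℕ) (y : X), Φ (lp.single 1 n y) = S n y := by
    intro n y
    rw [hΦ, tsum_eq_single n]
    · rw [lp.single_apply_self]
    · intro m hm
      rw [lp.single_apply_ne _ _ _ hm, map_zero]
  have hcl : IsClosed (Set.range Φ) := Φ.isometry.isClosedEmbedding.isClosed_range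
  have hsurj : Function.Surjective Φ := by
    intro f
    have hf : f ∈ closure (Set.range Φ) := by
      rw [Metric.mem_closure_iff]
      intro ε hε
      obtain ⟨N, x, hx⟩ := h2 f ε hε
      refine ⟨Φ (∑ n ∈ Finset.range N, lp.single 1 n (x n)), Set.mem_range_self _, ?_⟩
      rw [map_sum, dist_eq_norm]
      simp only [hΦ1]
      exact hx
    rw [hcl.closure_eq] at hf
    exact hf
  exact ⟨(LinearIsometryEquiv.ofSurjective Φ hsurj).toContinuousLinearEquiv⟩

end Pool.Agent.H32DG.UUa
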