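import Pool.Agent.H32DG.Stm

set_option autoImplicit false

open MeasureTheory Set Filter Topology
open scoped ENNReal

namespace Pool.Agent.H32DG.UUb

noncomputable abbrev mu : Measure ℝ := volume.restrict (Icc (0 : ℝ) 1)

noncomputable def cc (n : ℕ) : ℝ := (1 / 2) ^ (n + 1)
noncomputable def aa (n : ℕ) : ℝ := 1 - (1 / 2) ^ n

theorem cc_pos (n : ℕ) : 0 < cc n := by unfold cc; positivity

theorem aa_succ (n : ℕ) : aa n + cc n = aa (n + 1) := by
  unfold aa cc; ring

theorem aa_zero : aa 0 = 0 := by unfold aa; simp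

theorem aa_nonneg (n : ℕ) : 0 ≤ aa n := by
  unfold aa
  have : ((1 : ℝ) / 2) ^ n ≤ 1 := pow_le_one₀ (by norm_num) (by norm_num)
  linarith

theorem aa_lt_one (n : ℕ) : aa n < 1 := by
  unfold aa
  have : (0 : ℝ) < ((1 : ℝ) / 2) ^ n := by positivity
  linarith

theorem aa_mono : Monotone aa := by
  refine monotone_nat_of_le_succ fun n => ?_
  rw [← aa_succ]
  linarith [cc_pos n]

theorem aa_lim : Tendsto aa atTop (𝓝 1) := by
  have h : Tendsto (fun n : ℕ => ((1 : ℝ) / 2) ^ n) atTop (𝓝 0) :=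
    tendsto_pow_atTop_nhds_zero_of_lt_one (by norm_num) (by norm_num)
  have h2 := (tendsto_const_nhds (x := (1 : ℝ))).sub h
  rw [sub_zero] at h2
  exact h2

noncomputable def T (n : ℕ) (t : ℝ) : ℝ := aa n + cc n * t

theorem T_meas (n : ℕ) : Measurable (T n) := by unfold T; fun_prop

noncomputable def k (n : ℕ) : ℝ≥0∞ := ENNReal.ofReal (cc n)⁻¹

theorem k_ne_top (n : ℕ) : k n ≠ ∞ := ENNReal.ofReal_ne_top

theorem k_ne_zero (n : ℕ) : k n ≠ 0 := by
  unfold k
  have := cc_pos n
  simp only [ne_eq, ENNReal.ofReal_eq_zero, not_le]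
  positivity

theorem map_vol (n : ℕ) : Measure.map (T n) volume = k n • (volume : Measure ℝ) := by
  have h1 : T n = (fun x => aa n + x) ∘ (fun x => cc n * x) := rfl
  rw [h1, ← Measure.map_map (by fun_prop) (by fun_prop), Real.map_volume_mul_left (cc_pos n).ne',
    Measure.map_smul, map_add_left_eq_self, abs_of_pos (inv_pos.2 (cc_pos n))]
  rfl

theorem pre (n : ℕ) : T n ⁻¹' (Icc (aa n) (aa (n + 1))) = Icc 0 1 := by
  ext t
  have h := cc_pos n
  rw [← aa_succ]
  simp only [T, mem_preimage, mem_Icc]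
  constructor
  · rintro ⟨h1, h2⟩
    constructor
    · by_contra h3
      push Not at h3
      nlinarith
    · by_contra h3
      push Not at h3
      nlinarith
  · rintro ⟨h1, h2⟩
    constructor <;> nlinarith

theorem map_mu (n : ℕ) : Measure.map (T n) mu = k n • (volume : Measure ℝ).restrict (Icc (aa n) (aa (n + 1))) := by
  rw [mu, ← pre n, ← Measure.restrict_map (T_meas n) measurableSet_Icc, map_vol, Measure.restrict_smul]

theorem sub_mu (n : ℕ) : (volume : Measure ℝ).restrict (Icc (aa n) (aa (n + 1))) ≤ mu :=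
  Measure.restrict_mono (Icc_subset_Icc (aa_nonneg n) (aa_lt_one (n + 1)).le) le_rfl

theorem qmp (n : ℕ) : Measure.QuasiMeasurePreserving (T n) mu mu := by
  refine ⟨T_meas n, ?_⟩
  rw [map_mu]
  exact (Measure.AbsolutelyContinuous.smul_left (Measure.absolutelyContinuous_of_le (sub_mu n)) (k n))

theorem int_comp (n : ℕ) {f : ℝ → ℝ} (hf : Integrable f mu) : Integrable (fun t => cc n * f (T n t)) mu := by
  refine Integrable.const_mul ?_ _
  have h1 : Integrable f (Measure.map (T n) mu) := by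
    rw [map_mu]
    exact (hf.mono_measure (sub_mu n)).smul_measure (k_ne_top n)
  exact h1.comp_measurable (T_meas n)

theorem int_norm (n : ℕ) {f : ℝ → ℝ} (hf : Integrable f mu) :
    ∫ t, ‖cc n * f (T n t)‖ ∂mu = ∫ t in Ioc (aa n) (aa (n + 1)), ‖f t‖ := by
  have h0 := cc_pos n
  simp only [norm_mul, Real.norm_of_nonneg h0.le]
  rw [integral_const_mul]
  have h1 : AEStronglyMeasurable (fun x => ‖f x‖) (Measure.map (T n) mu) := by
    rw [map_mu]
    exact ((hf.mono_measure (sub_mu n)).smul_measure (k_ne_top n)).norm.aestronglyMeasurable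
  have h2 : ∫ t, ‖f (T n t)‖ ∂mu = ∫ s, ‖f s‖ ∂(Measure.map (T n) mu) :=
    (integral_map (T_meas n).aemeasurable h1).symm
  rw [h2, map_mu, integral_smul_measure, integral_Icc_eq_integral_Ioc]
  unfold k
  rw [ENNReal.toReal_ofReal (by positivity), smul_eq_mul, ← mul_assoc, mul_inv_cancel₀ h0.ne', one_mul]

theorem union : (⋃ n, Ioc (aa n) (aa (n + 1))) = Ioo (0 : ℝ) 1 := by
  ext x
  simp only [mem_iUnion, mem_Ioc, mem_Ioo]
  constructor
  · rintro ⟨n, h1, h2⟩
    exact ⟨(aa_nonneg n).trans_lt h1, h2.trans_lt (aa_lt_one _)⟩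
  · rintro ⟨h1, h2⟩
    have h3 : ∃ n, x ≤ aa n := by
      obtain ⟨n, hn⟩ := (aa_lim.eventually_const_lt h2).exists
      exact ⟨n, hn.le⟩
    classical
    have h4 := Nat.find_spec h3
    have h5 : Nat.find h3 ≠ 0 := by
      intro h
      rw [h, aa_zero] at h4
      linarith
    obtain ⟨m, hm⟩ := Nat.exists_eq_succ_of_ne_zero h5
    refine ⟨m, ?_, ?_⟩
    · by_contra h
      push Not at h
      have := Nat.find_min' h3 h
      omega
    · rw [hm] at h4
      exact h4

theorem disj : Pairwise (Function.onFun Disjoint fun n => Ioc (aa n) (aa (n + 1))) :=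
  aa_mono.pairwise_disjoint_on_Ioc_succ

theorem hsum {f : ℝ → ℝ} (hf : Integrable f mu) :
    HasSum (fun n => ∫ t, ‖cc n * f (T n t)‖ ∂mu) (∫ t, ‖f t‖ ∂mu) := by
  simp only [int_norm _ hf]
  have h1 : IntegrableOn (fun t => ‖f t‖) (⋃ n, Ioc (aa n) (aa (n + 1))) volume := by
    rw [union]
    exact (IntegrableOn.mono_set (t := Icc (0 : ℝ) 1) hf.norm Ioo_subset_Icc_self)
  have h2 := hasSum_integral_iUnion (fun n => measurableSet_Ioc) disj h1
  rw [union] at h2
  rw [mu, integral_Icc_eq_integral_Ioo]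
  exact h2

noncomputable def R (n : ℕ) (f : U) : U := (int_comp n (L1.integrable_coeFn f)).toL1 _

theorem R_coe (n : ℕ) (f : U) : (R n f : ℝ → ℝ) =ᵐ[mu] fun t => cc n * f (T n t) :=
  Integrable.coeFn_toL1 _

theorem R_norm (n : ℕ) (f : U) : ‖R n f‖ = ∫ t, ‖cc n * f (T n t)‖ ∂mu := by
  rw [L1.norm_eq_integral_norm]
  refine integral_congr_ae ?_
  filter_upwards [R_coe n f] with t ht
  rw [ht]

theorem R_sum (f : U) : HasSum (fun n => ‖R n f‖) ‖f‖ := by
  simp only [R_norm]
  rw [L1.norm_eq_integral_norm]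
  exact hsum (L1.integrable_coeFn f)

theorem R_add (n : ℕ) (f g : U) : R n (f + g) = R n f + R n g := by
  refine Lp.ext ?_
  have h1 := (qmp n).ae_eq_comp (Lp.coeFn_add f g)
  filter_upwards [R_coe n (f + g), R_coe n f, R_coe n g, Lp.coeFn_add (R n f) (R n g), h1] with t e1 e2 e3 e4 e5
  simp only [Function.comp_apply] at e5
  rw [e1, e4, Pi.add_apply, e2, e3, e5, Pi.add_apply]
  ring

theorem R_smul (n : ℕ) (c : ℝ) (f : U) : R n (c • f) = c • R n f := by
  refine Lp.ext ?_
  have h1 := (qmp n).ae_eq_comp (Lp.coeFn_smul c f)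
  filter_upwards [R_coe n (c • f), R_coe n f, Lp.coeFn_smul c (R n f), h1] with t e1 e2 e3 e4
  simp only [Function.comp_apply] at e4
  rw [e1, e3, Pi.smul_apply, e2, e4, Pi.smul_apply]
  simp only [smul_eq_mul]
  ring

theorem R_mem (f : U) : Memℓp (fun n => R n f) 1 := by
  refine memℓp_gen ?_
  simpa using (R_sum f).summable

noncomputable def Phi : U →ₗᵢ[ℝ] L1 U where
  toFun f := ⟨fun n => R n f, R_mem f⟩
  map_add' f g := by
    ext1
    funext n
    exact R_add n f g
  map_smul' c f := by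
    ext1
    funext n
    exact R_smul n c f
  norm_map' f := by
    show ‖(⟨fun n => R n f, R_mem f⟩ : L1 U)‖ = ‖f‖
    rw [lp.norm_eq_tsum_rpow (by simp)]
    simpa using (R_sum f).tsum_eq

theorem Phi_apply (f : U) (n : ℕ) : Phi f n = R n f := rfl

/-- inverse affine map -/
noncomputable def V (n : ℕ) (s : ℝ) : ℝ := (s - aa n) / cc n

theorem V_T (n : ℕ) (t : ℝ) : V n (T n t) = t := by
  unfold V T
  have := (cc_pos n).ne'
  field_simp
  ring

noncomputable def g (n : ℕ) (w : ℝ → ℝ) : ℝ → ℝ :=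
  (Ioc (aa n) (aa (n + 1))).indicator fun s => (cc n)⁻¹ * w (V n s)

theorem g_int (n : ℕ) {w : ℝ → ℝ} (hw : Integrable w mu) : Integrable (g n w) mu := by
  have hV : Measurable (V n) := by unfold V; fun_prop
  have h3 : Measure.map (V n) (Measure.map (T n) mu) = mu := by
    rw [Measure.map_map hV (T_meas n)]
    have : V n ∘ T n = id := by
      funext t
      exact V_T n t
    rw [this, Measure.map_id]
  have h1 : Integrable (fun s => w (V n s)) (Measure.map (T n) mu) := by
    have h4 : Integrable w (Measure.map (V n) (Measure.map (T n) mu)) := by rw [h3]; exact hw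
    exact h4.comp_measurable hV
  rw [map_mu, integrable_smul_measure (k_ne_zero n) (k_ne_top n)] at h1
  have h2 : IntegrableOn (fun s => (cc n)⁻¹ * w (V n s)) (Ioc (aa n) (aa (n + 1))) volume :=
    (IntegrableOn.mono_set (t := Icc (aa n) (aa (n + 1))) h1 Ioc_subset_Icc_self).const_mul _
  have h5 : Integrable (g n w) volume := (integrable_indicator_iff measurableSet_Ioc).2 h2
  exact h5.mono_measure Measure.restrict_le_self

theorem single_mem (n : ℕ) (w : U) : ∃ f : U, Phi f = lp.single 1 n w := by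
  refine ⟨(g_int n (L1.integrable_coeFn w)).toL1 _, ?_⟩
  ext1
  funext m
  rw [Phi_apply]
  have h0 : ((g_int n (L1.integrable_coeFn w)).toL1 _ : ℝ → ℝ) =ᵐ[mu] g n w := Integrable.coeFn_toL1 _
  have h1 := (qmp m).ae_eq_comp h0
  have h2 : ∀ᵐ t ∂mu, t ∈ Icc (0 : ℝ) 1 := ae_restrict_mem measurableSet_Icc
  have h3 : ∀ᵐ t ∂mu, t ≠ 0 := by
    refine ae_restrict_of_ae ?_
    simp [ae_iff]
  have hT : ∀ t : ℝ, t ∈ Icc (0 : ℝ) 1 → t ≠ 0 → T m t ∈ Ioc (aa m) (aa (m + 1)) := by
    intro t ht ht0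
    have hc := cc_pos m
    have ht1 : 0 < t := lt_of_le_of_ne ht.1 (Ne.symm ht0)
    rw [← aa_succ]
    unfold T
    constructor
    · nlinarith
    · nlinarith [ht.2]
  by_cases hm : m = n
  · subst hm
    rw [lp.single_apply_self]
    refine Lp.ext ?_
    filter_upwards [R_coe m ((g_int m (L1.integrable_coeFn w)).toL1 _), h1, h2, h3] with t e1 e2 e3 e4
    simp only [Function.comp_apply] at e2
    rw [e1, e2, g, indicator_of_mem (hT t e3 e4), V_T, ← mul_assoc, mul_inv_cancel₀ (cc_pos m).ne', one_mul]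
  · rw [lp.single_apply_ne _ _ _ hm]
    refine Lp.ext ?_
    filter_upwards [R_coe m ((g_int n (L1.integrable_coeFn w)).toL1 _), h1, h2, h3,
      Lp.coeFn_zero ℝ 1 mu] with t e1 e2 e3 e4 e5
    simp only [Function.comp_apply] at e2
    rw [e1, e2, e5, g, indicator_of_notMem, mul_zero, Pi.zero_apply]
    exact Set.disjoint_left.1 (disj hm) (hT t e3 e4)

theorem surj : Function.Surjective Phi := by
  intro w
  have hcl : IsClosed (Set.range Phi) := Phi.isometry.isClosedEmbedding.isClosed_range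
  have h1 : HasSum (fun n => lp.single 1 n (w n)) w := lp.hasSum_single (by simp) w
  have h2 : w ∈ Set.range Phi := by
    refine hcl.mem_of_tendsto h1 (Eventually.of_forall fun s => ?_)
    have h3 : ∑ n ∈ s, lp.single 1 n (w n) ∈ LinearMap.range Phi.toLinearMap := by
      refine Submodule.sum_mem _ fun n _ => ?_
      obtain ⟨f, hf⟩ := single_mem n (w n)
      exact ⟨f, hf⟩
    obtain ⟨f, hf⟩ := h3
    exact ⟨f, hf⟩
  exact h2

theorem t : S_UU :=
  ⟨(LinearIsometryEquiv.ofSurjective Phi surj).symm.toContinuousLinearEquiv⟩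

end Pool.Agent.H32DG.UUb
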